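import Pool.Agent.Helper74.TS.Col0

/-!
# Case `CaseOneTall`: the polynomial inequalities of the column `b`

The column `b` has the tall far cell `F = (a; b)` (`w ≥ 13/20`, parameters `A` for `c`, `B` for `l`),
the rows `c` and `l`, and the row `a` (height `z`) with an entry `≤ z - w`. Further far cells of `c`
and `l` are possible.
-/

set_option autoImplicit false

namespace Pool.Agent.Helper53.TT

open Pool.Agent.Helper83.TS Pool.Agent.Helper74.TS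

/-- the slot of the row `a` -/
noncomputable def ra (n z w : ℝ) : ℝ := -n * (w - z) - (1 - z) * (w - z) ^ 2 / 2 + (w - z) ^ 3 / 3

/-- the tall far cell -/
structure FF (w A B : ℝ) : Prop where
  w0 : 13 / 20 ≤ w
  w1 : w ≤ 1
  A0 : 0 ≤ A
  B0 : 0 ≤ B
  lo : w ≤ A + B
  hi : A + B ≤ 1 + w

/-- the four regimes of the volume -/
theorem vl_cases {w A B V W : ℝ}
    (h1 : w ≤ A → w ≤ B → V + (w * A * B - w ^ 3 / 3) ≤ W)
    (h2 : A ≤ w → w ≤ B → V + (w * A * B - w ^ 2 * A + w * A ^ 2 - A ^ 3 / 3) ≤ W)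
    (h3 : B ≤ w → w ≤ A → V + (w * A * B - w ^ 2 * B + w * B ^ 2 - B ^ 3 / 3) ≤ W)
    (h4 : A ≤ w → B ≤ w → V + (w * A * B - w ^ 3 / 3 + ((w - A) ^ 3 + (w - B) ^ 3) / 3) ≤ W) :
    V + vl w A B ≤ W := by
  rcases le_total A w with hA | hA
  · rcases le_total B w with hB | hB
    · rw [vl, max_eq_left (by linarith : 0 ≤ w - B), max_eq_left (by linarith : 0 ≤ w - A)]
      exact h4 hA hB
    · rw [vl, max_eq_left (by linarith : 0 ≤ w - A), max_eq_right (by linarith : w - B ≤ 0)]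
      have := h2 hA hB
      nlinarith
  · rcases le_total B w with hB | hB
    · rw [vl, max_eq_left (by linarith : 0 ≤ w - B), max_eq_right (by linarith : w - A ≤ 0)]
      have := h3 hB hA
      nlinarith
    · rw [vl, max_eq_right (by linarith : w - B ≤ 0), max_eq_right (by linarith : w - A ≤ 0)]
      have := h1 hA hB
      nlinarith

/-- the four regimes of the volume, with a lower bound -/
theorem vl_cases' {w A B V W f : ℝ} (hf : f ≤ vl w A B)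
    (h1 : w ≤ A → w ≤ B → f ≤ w * A * B - w ^ 3 / 3 → V + (w * A * B - w ^ 3 / 3) ≤ W)
    (h2 : A ≤ w → w ≤ B → f ≤ w * A * B - w ^ 2 * A + w * A ^ 2 - A ^ 3 / 3 →
      V + (w * A * B - w ^ 2 * A + w * A ^ 2 - A ^ 3 / 3) ≤ W)
    (h3 : B ≤ w → w ≤ A → f ≤ w * A * B - w ^ 2 * B + w * B ^ 2 - B ^ 3 / 3 →
      V + (w * A * B - w ^ 2 * B + w * B ^ 2 - B ^ 3 / 3) ≤ W)
    (h4 : A ≤ w → B ≤ w → f ≤ w * A * B - w ^ 3 / 3 + ((w - A) ^ 3 + (w - B) ^ 3) / 3 →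
      V + (w * A * B - w ^ 3 / 3 + ((w - A) ^ 3 + (w - B) ^ 3) / 3) ≤ W) :
    V + vl w A B ≤ W := by
  rcases le_total A w with hA | hA
  · rcases le_total B w with hB | hB
    · rw [vl, max_eq_left (by linarith : 0 ≤ w - B), max_eq_left (by linarith : 0 ≤ w - A)] at hf ⊢
      exact h4 hA hB hf
    · rw [vl, max_eq_left (by linarith : 0 ≤ w - A), max_eq_right (by linarith : w - B ≤ 0)]
        at hf ⊢
      have := h2 hA hB (by nlinarith)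
      nlinarith
  · rcases le_total B w with hB | hB
    · rw [vl, max_eq_left (by linarith : 0 ≤ w - B), max_eq_right (by linarith : w - A ≤ 0)]
        at hf ⊢
      have := h3 hB hA (by nlinarith)
      nlinarith
    · rw [vl, max_eq_right (by linarith : w - B ≤ 0), max_eq_right (by linarith : w - A ≤ 0)]
        at hf ⊢
      have := h1 hA hB (by nlinarith)
      nlinarith

/-! ### Set A: `F` of kind A for both classes, or light -/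

/-- one more far cell `G` (`t`), of the class with `cG dG` (parameter `A` of `F`); the other class
`cO dO` (parameter `B`) -/
structure GA (cG dG cO dO n z W : ℝ) : Prop where
  p0 : ∀ w A B t u : ℝ, FF w A B → 0 ≤ t → t ≤ 13 / 20 → A ≤ w → 0 ≤ u → u ≤ 1 → u ≤ 1 - B + dO →
    mj cG (1 - dG) dG t + st cO dO u + ra n z w + 27 / 50 * t * (w - A) + vl w A B ≤ W
  y0 : ∀ w A B t : ℝ, FF w A B → 0 ≤ t → t ≤ 13 / 20 → A ≤ w → 1 + dO ≤ B →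
    mj cG (1 - dG) dG t + cO * (1 - B + dO) + ra n z w + 27 / 50 * t * (w - A) + vl w A B ≤ W
  p1 : ∀ w A B t u : ℝ, FF w A B → 0 ≤ t → t ≤ 13 / 20 → A + B ≤ 2 * w → A ≤ 1 + t → 0 ≤ u →
    u ≤ 1 → u ≤ 1 - B + dO →
    mj cG (1 - dG) dG t + st cO dO u + ra n z w + t * (2 * w - A - B) + vl w A B ≤ W
  y1 : ∀ w A B t : ℝ, FF w A B → 0 ≤ t → t ≤ 13 / 20 → A + B ≤ 2 * w → 1 + dO ≤ B →
    mj cG (1 - dG) dG t + cO * (1 - B + dO) + ra n z w + t * (2 * w - A - B) + vl w A B ≤ W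
  b1 : ∀ w A B t u : ℝ, FF w A B → 0 ≤ t → t ≤ 13 / 20 → A + B ≤ 2 * w → 1 + t ≤ A → 0 ≤ u →
    u ≤ 1 → u ≤ 1 - B + dO →
    mj cG (1 - dG) dG (A - 1) + st cO dO u + ra n z w + t * (2 * w - A - B) + vl w A B ≤ W
  l : ∀ w t u : ℝ, 13 / 20 ≤ w → w ≤ 1 → 0 ≤ t → t ≤ 13 / 20 → 0 ≤ u → u ≤ 1 →
    mj cG (1 - dG) dG t + st cO dO u + ra n z w + 1 / 10 + vm t ≤ W

/-- set A -/
structure SA (c1 dc c2 dl n z W : ℝ) : Prop where
  n0 : 0 ≤ n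
  m1 : dc * (1 - dc) ≤ c1
  m2 : dl * (1 - dl) ≤ c2
  p : ∀ w A B u v : ℝ, FF w A B → 0 ≤ u → u ≤ 1 → u ≤ 1 - A + dc → 0 ≤ v → v ≤ 1 →
    v ≤ 1 - B + dl → st c1 dc u + st c2 dl v + ra n z w + vl w A B ≤ W
  yc : ∀ w A B v : ℝ, FF w A B → 1 + dc ≤ A → 0 ≤ v → v ≤ 1 → v ≤ 1 - B + dl →
    c1 * (1 - A + dc) + st c2 dl v + ra n z w + vl w A B ≤ W
  yl : ∀ w A B u : ℝ, FF w A B → 1 + dl ≤ B → 0 ≤ u → u ≤ 1 → u ≤ 1 - A + dc →
    st c1 dc u + c2 * (1 - B + dl) + ra n z w + vl w A B ≤ W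
  g00 : ∀ w A B t p : ℝ, FF w A B → 0 ≤ t → t ≤ 13 / 20 → 0 ≤ p → p ≤ 13 / 20 → A ≤ w → B ≤ w →
    mj c1 (1 - dc) dc t + mj c2 (1 - dl) dl p + ra n z w + 27 / 50 * t * (w - A)
      + 27 / 50 * p * (w - B) + vl w A B ≤ W
  g01 : ∀ w A B t p : ℝ, FF w A B → 0 ≤ t → t ≤ 13 / 20 → 0 ≤ p → p ≤ 13 / 20 → A ≤ w →
    A + B ≤ 2 * w →
    mj c1 (1 - dc) dc t + mj c2 (1 - dl) dl p + ra n z w + 27 / 50 * t * (w - A)
      + p * (2 * w - A - B) + vl w A B ≤ W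
  g10 : ∀ w A B t p : ℝ, FF w A B → 0 ≤ t → t ≤ 13 / 20 → 0 ≤ p → p ≤ 13 / 20 → B ≤ w →
    A + B ≤ 2 * w →
    mj c1 (1 - dc) dc t + mj c2 (1 - dl) dl p + ra n z w + t * (2 * w - A - B)
      + 27 / 50 * p * (w - B) + vl w A B ≤ W
  g11 : ∀ w A B t p : ℝ, FF w A B → 0 ≤ t → t ≤ 13 / 20 → 0 ≤ p → p ≤ 13 / 20 →
    A + B ≤ 2 * w →
    mj c1 (1 - dc) dc t + mj c2 (1 - dl) dl p + ra n z w + t * (2 * w - A - B)
      + p * (2 * w - A - B) + vl w A B ≤ W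
  l0 : ∀ w u v : ℝ, 13 / 20 ≤ w → w ≤ 1 → 0 ≤ u → u ≤ 1 → 0 ≤ v → v ≤ 1 →
    st c1 dc u + st c2 dl v + ra n z w + 1 / 10 ≤ W
  l2 : ∀ w t p : ℝ, 13 / 20 ≤ w → w ≤ 1 → 0 ≤ t → t ≤ 13 / 20 → 0 ≤ p → p ≤ 13 / 20 →
    mj c1 (1 - dc) dc t + mj c2 (1 - dl) dl p + ra n z w + 1 / 10 + vm t + vm p ≤ W
  h1 : GA c1 dc c2 dl n z W
  h2 : GA c2 dl c1 dc n z W

/-! ### Set B: the volume of `F` is at least `1/10` -/

/-- `F` of kind B for `c`, of kind A for `l`; `la` the multiplier of the kind -/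
structure SB1 (c1 dc c2 dl la n z W : ℝ) : Prop where
  n0 : 0 ≤ n
  la0 : 0 ≤ la
  m1 : 0 ≤ c1 - la
  m2 : dl * (1 - dl) ≤ c2
  p : ∀ w A B u v : ℝ, FF w A B → 1 / 10 ≤ vl w A B → 0 ≤ u → u ≤ 1 → 1 - A + dc ≤ u → 0 ≤ v →
    v ≤ 1 → v ≤ 1 - B + dl →
    st c1 dc u + la * (1 + w - A - B - u) + st c2 dl v + ra n z w + vl w A B ≤ W
  yl : ∀ w A B u : ℝ, FF w A B → 1 / 10 ≤ vl w A B → 0 ≤ u → u ≤ 1 → 1 - A + dc ≤ u →
    1 + dl ≤ B →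
    st c1 dc u + la * (1 + w - A - B - u) + c2 * (1 - B + dl) + ra n z w + vl w A B ≤ W
  gc : ∀ w A B s v : ℝ, FF w A B → 1 / 10 ≤ vl w A B → 0 ≤ s → s ≤ 1 → 1 + s ≤ A →
    A + B ≤ 2 * w → 0 ≤ v → v ≤ 1 → v ≤ 1 - B + dl →
    mj (c1 - la) (1 - dc) dc s + la * (1 + w - A - B) + st c2 dl v + ra n z w
      + s * (2 * w - A - B) + vl w A B ≤ W
  gl0 : ∀ w A B t u : ℝ, FF w A B → 1 / 10 ≤ vl w A B → 0 ≤ t → t ≤ 13 / 20 → B ≤ w → 0 ≤ u →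
    u ≤ 1 → 1 - A + dc ≤ u →
    mj c2 (1 - dl) dl t + st c1 dc u + la * (1 + w - A - B - u) + ra n z w
      + 27 / 50 * t * (w - B) + vl w A B ≤ W
  gl1 : ∀ w A B t u : ℝ, FF w A B → 1 / 10 ≤ vl w A B → 0 ≤ t → t ≤ 13 / 20 →
    A + B ≤ 2 * w → 0 ≤ u → u ≤ 1 → 1 - A + dc ≤ u →
    mj c2 (1 - dl) dl t + st c1 dc u + la * (1 + w - A - B - u) + ra n z w
      + t * (2 * w - A - B) + vl w A B ≤ W
  gg0 : ∀ w A B s p : ℝ, FF w A B → 1 / 10 ≤ vl w A B → 0 ≤ s → s ≤ 1 → 1 + s ≤ A →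
    A + B ≤ 2 * w → 0 ≤ p → p ≤ 13 / 20 → B ≤ w →
    mj (c1 - la) (1 - dc) dc s + la * (1 + w - A - B) + mj c2 (1 - dl) dl p + ra n z w
      + s * (2 * w - A - B) + 27 / 50 * p * (w - B) + vl w A B ≤ W
  gg1 : ∀ w A B s p : ℝ, FF w A B → 1 / 10 ≤ vl w A B → 0 ≤ s → s ≤ 1 → 1 + s ≤ A →
    A + B ≤ 2 * w → 0 ≤ p → p ≤ 13 / 20 →
    mj (c1 - la) (1 - dc) dc s + la * (1 + w - A - B) + mj c2 (1 - dl) dl p + ra n z w
      + s * (2 * w - A - B) + p * (2 * w - A - B) + vl w A B ≤ W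

/-- `F` of kind B for both classes, one more far cell of the class `cG dG lG` (parameter `A`) -/
def GB (cG dG cO dO lG lO n z W : ℝ) : Prop :=
  ∀ w A B s v : ℝ, FF w A B → 1 / 10 ≤ vl w A B → 0 ≤ s → s ≤ 1 → 1 + s ≤ A →
    A + B ≤ 2 * w → 0 ≤ v → v ≤ 1 → 1 - B + dO ≤ v →
    mj (cG - lG) (1 - dG) dG s + lG * (1 + w - A - B) + st cO dO v + lO * (1 + w - A - B - v)
      + ra n z w + s * (2 * w - A - B) + vl w A B ≤ W

/-- `F` of kind B for both classes -/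
structure SB2 (c1 dc c2 dl l1 l2 n z W : ℝ) : Prop where
  n0 : 0 ≤ n
  m1 : 0 ≤ c1 - l1
  m2 : 0 ≤ c2 - l2
  p : ∀ w A B u v : ℝ, FF w A B → 1 / 10 ≤ vl w A B → 0 ≤ u → u ≤ 1 → 1 - A + dc ≤ u → 0 ≤ v →
    v ≤ 1 → 1 - B + dl ≤ v →
    st c1 dc u + l1 * (1 + w - A - B - u) + st c2 dl v + l2 * (1 + w - A - B - v) + ra n z w
      + vl w A B ≤ W
  g1 : GB c1 dc c2 dl l1 l2 n z W
  g2 : GB c2 dl c1 dc l2 l1 n z W

end Pool.Agent.Helper53.TT
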