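import Pool.Agent.Helper53.TT.FamB
import Pool.Agent.Helper78.TS.TallColAA
import Pool.Agent.Helper78.TS.TallColAB
import Pool.Agent.Helper36.TW.Tot

/-!
# `CaseOneTall` from the polynomial inequalities of the columns
-/

set_option autoImplicit false

namespace Pool.Agent.Helper53.TT

open Pool.Agent.Helper84.TS Pool.Agent.Helper36.TS Pool.Agent.Helper83.TS Pool.Agent.Helper74.TS
  Pool.Agent.Helper78.TS

/-- a statement for all heights of three classes -/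
def All3 (Q : ℝ → ℝ → ℝ → Prop) : Prop :=
  ∀ x y z : ℝ, 0 ≤ x → x ≤ 3 / 5 → 0 ≤ y → y ≤ 3 / 5 → 0 ≤ z → z ≤ 3 / 5 → Q x y z

/-- the slot of the row `a` in the columns `c`, `l` -/
def T3 (n t : ℝ → ℝ) : Prop :=
  ∀ z u : ℝ, 0 ≤ z → z ≤ 3 / 5 → 0 ≤ u → u ≤ 1 → st (n z) z u ≤ t z

section

variable {A : Fin 4 → Fin 4 → Option (Fin 4 → ℝ)} {P : Fin 4 → Fin 4 → ℝ} {a b m x : Fin 4}
  {F : Fin 4 → ℝ}

theorem tall_hd (h : TallB A P a b F) (i : Fin 4) : 0 ≤ P i i - 1 ∧ P i i - 1 ≤ 3 / 5 := by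
  have h1 := (h.of.cell i i _ (h.hP i)).one
  exact ⟨by linarith, (h.hd i).le⟩

end

theorem colMA (H : All3 fun x y z => CM (TallA.n0 x) (TallA.q03 x z) (TallA.n1 y)
    (TallA.k01 x y) (TallA.lm01 x y) x y z (TallA.wm x y z)) (T : T3 TallA.n3 TallA.t3) :
    TallColMA := by
  intro A P a b m x F hn h
  obtain ⟨a0, a1⟩ := tall_hd h a
  obtain ⟨b0, b1⟩ := tall_hd h b
  obtain ⟨x0, x1⟩ := tall_hd h x
  exact colI_m h hn (H _ _ _ b0 b1 x0 x1 a0 a1) (fun u u0 u1 => T _ u a0 a1 u0 u1)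

theorem colMB (H : All3 fun x y z => CM (TallB.n0 x) (TallB.q03 x z) (TallB.n1 y)
    (TallB.k01 x y) (TallB.lm01 x y) x y z (TallB.wm x y z)) (T : T3 TallB.n3 TallB.t3) :
    TallColMB := by
  intro A P a b m x F hn h
  obtain ⟨a0, a1⟩ := tall_hd h a
  obtain ⟨b0, b1⟩ := tall_hd h b
  obtain ⟨x0, x1⟩ := tall_hd h x
  exact colI_m h hn (H _ _ _ b0 b1 x0 x1 a0 a1) (fun u u0 u1 => T _ u a0 a1 u0 u1)

theorem colML (H : All3 fun x y z => CM (TallB.n0 x) (TallB.q03 x z) (TallB.n1 y - TallB.la y)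
    (TallB.k01 x y) (TallB.lm01 x y) x y z (TallB.wml x y z)) (T : T3 TallB.n3 TallB.t3) :
    TallColML := by
  intro A P a b m x F hn h _
  obtain ⟨a0, a1⟩ := tall_hd h a
  obtain ⟨b0, b1⟩ := tall_hd h b
  obtain ⟨x0, x1⟩ := tall_hd h x
  exact colI_m h hn (H _ _ _ b0 b1 x0 x1 a0 a1) (fun u u0 u1 => T _ u a0 a1 u0 u1)

/-- **`CaseOneTall` from the polynomial inequalities** -/
theorem caseOneTall_of_cert
    (mA : All3 fun x y z => CM (TallA.n0 x) (TallA.q03 x z) (TallA.n1 y) (TallA.k01 x y)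
      (TallA.lm01 x y) x y z (TallA.wm x y z))
    (mB : All3 fun x y z => CM (TallB.n0 x) (TallB.q03 x z) (TallB.n1 y) (TallB.k01 x y)
      (TallB.lm01 x y) x y z (TallB.wm x y z))
    (mL : All3 fun x y z => CM (TallB.n0 x) (TallB.q03 x z) (TallB.n1 y - TallB.la y)
      (TallB.k01 x y) (TallB.lm01 x y) x y z (TallB.wml x y z))
    (tA : T3 TallA.n3 TallA.t3) (tB : T3 TallB.n3 TallB.t3)
    (sA : All3 fun x y z => SA (TallA.n1 x - TallA.k12 x y) x (TallA.n1 y) y (TallA.n3 z) z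
      (TallA.wb x y z))
    (sB10 : All3 fun x y z => SB1 (TallB.n1 x - TallB.k12 x y) x (TallB.n1 y) y (TallB.la x)
      (TallB.n3 z) z (TallB.wb1 x y z))
    (sB11 : All3 fun x y z => SB1 (TallB.n1 x) x (TallB.n1 y - TallB.k12 x y) y (TallB.la x)
      (TallB.n3 z) z (TallB.wb1 x y z))
    (sB2 : All3 fun x y z => SB2 (TallB.n1 x - TallB.k12 x y) x (TallB.n1 y) y (TallB.la x)
      (TallB.la y) (TallB.n3 z) z (TallB.wb2 x y z)) :
    CaseOneTall :=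
  caseOneTall_cols (colBA sA) (colMA mA tA) tallColAA Pool.Agent.Helper36.TW.tallTotA
    (colB1 sB10 sB11) (colB2 sB2) (colMB mB tB) (colML mL tB) tallColAB
    Pool.Agent.Helper36.TW.tallTotB

end Pool.Agent.Helper53.TT
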