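import Pool.Agent.Helper53.TT.ColM

/-!
# The column `m` with two rows: all states in real variables
-/

set_option autoImplicit false

namespace Pool.Agent.Helper53.TT

open Pool.Agent.Helper36.TS Pool.Agent.Helper83.TS Pool.Agent.Helper74.TS Pool.Agent.Helper78.TS

/-- the value of the column -/
noncomputable def Vm (nb q nx k db dx ub ux : ℝ) : ℝ :=
  sx nb db ub + sx nx dx ux - q * min (13 / 20) ub - k * min ub ux

section

variable {nb q nx k L db dx da W ub ux : ℝ}

theorem row_en {c d u : ℝ} (hc : 0 ≤ c) (r : Row d u) : En c d u :=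
  ⟨hc, r.d0, r.d1.le, r.lo, r.hi⟩

/-- no far cell -/
theorem CM.none (H : CM nb q nx k L db dx da W) (rb : Row db ub) (rx : Row dx ux) :
    Vm nb q nx k db dx ub ux ≤ W := by
  have hX := H.hX
  have hx := H.hx
  have hq := H.hq
  have hk := H.hk
  have u0 := le_max_right ux 0
  have u1 : max ux 0 ≤ 1 := max_le rx.hi zero_le_one
  have s0 := le_max_right ub 0
  unfold Vm
  rcases le_total ub ux with h | h
  · rw [min_eq_left h]
    have gx := sx_le_st (row_en (c := nx) (by linarith) rx)
    rcases le_total ub (13 / 20) with h1 | h1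
    · rw [min_eq_right h1]
      have gb := sx_le_st (row_en hX rb)
      have i := H.n00 _ _ s0 (max_le h1 (by norm_num)) u0 u1
      rw [sx_sub, sx_sub] at gb
      linarith
    · rw [min_eq_left h1]
      have gb := sx_le_st (row_en (c := nb - k) (by linarith) rb)
      rw [max_eq_left (by linarith : 0 ≤ ub), sx_sub] at gb
      rw [max_eq_left (by linarith : 0 ≤ ux)] at gx
      have i := H.n01 ub ux h1 rb.hi h rx.hi
      linarith
  · rw [min_eq_right h]
    have gx := sx_le_st (row_en (c := nx - k) hx rx)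
    rw [sx_sub] at gx
    rcases le_total ub (13 / 20) with h1 | h1
    · rw [min_eq_right h1]
      have gb := sx_le_st (row_en (c := nb - q) (by linarith) rb)
      have i := H.n10 _ _ s0 (max_le h1 (by norm_num)) u0 u1
      rw [sx_sub] at gb
      linarith
    · rw [min_eq_left h1]
      have gb := sx_le_st (row_en (c := nb) (by linarith) rb)
      rw [max_eq_left (by linarith : 0 ≤ ub)] at gb
      have i := H.n11 ub _ h1 rb.hi u0 u1
      linarith

/-- from the cap -/
theorem farC_facts {f w d al be ui ux uy di dx dy s t : ℝ}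
    (F : FarC f w d al be ui ux uy di dx dy s t) (hdi : 0 ≤ di) (hux : ux ≤ 1)
    (w1 : w ≤ 13 / 20) (own : w ≤ -ui + max (di - d) 0) :
    f = vl w (1 - al) (1 - be) ∧ Fl w (1 - al) (1 - be) ∧ w ≤ di - ui ∧
      (ux ≤ 1 - (1 - al) + dx ∨ ux + (1 - al) + (1 - be) - 1 ≤ s) := by
  obtain ⟨e, h1, h2, h3, h4, h5⟩ := farC_vl F
  refine ⟨e, ⟨F.w0.le, w1, h1.le, h2.le, h3.le, h4⟩, ?_, ?_⟩
  · have : max (di - d) 0 ≤ di := max_le (by linarith [F.d0]) hdi
    linarith
  · rcases F.capx with h | h
    · left
      rw [min_eq_left (by linarith [F.w1] : ux ≤ 2 - w)] at h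
      linarith
    · right
      exact slack_kindB F hdi hux own h

/-- the far cell belongs to `b` -/
theorem CM.fb (H : CM nb q nx k L db dx da W) (rb : Row db ub) (rx : Row dx ux)
    {f w d al be ua s t : ℝ} (F : FarC f w d al be ub ux ua db dx da s t)
    (own : w ≤ -ub + max (db - d) 0) (w1 : w ≤ 13 / 20) (hs : 0 ≤ s)
    (hB : 1 - be ≤ 7 / 20 + da) (hda : da ≤ 13 / 20) :
    Vm nb q nx k db dx ub ux + f ≤ W + L * s := by
  have hX := H.hX
  have hx := H.hx
  have hq := H.hq
  have hk := H.hk
  obtain ⟨e, Fl, hown, cap⟩ := farC_facts F rb.d0 rx.hi w1 own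
  rw [e]
  clear e F own
  generalize 1 - al = A at *
  generalize 1 - be = B at *
  have w0 := Fl.w0
  have db1 := rb.d1
  have h1 : ub ≤ 13 / 20 := by linarith
  unfold Vm
  rw [min_eq_right h1]
  have D : Dm w (db - ub) := ⟨w0, w1, hown, by linarith [rb.lo]⟩
  rcases le_total ub ux with h | h
  · rw [min_eq_left h]
    have gb := sx_le_mj (X := nb - q - k) (d := db) (u := ub) (D := db) rb.d0 (by linarith)
      (rfl : db - ub = db - ub) rb.hi
    rw [sx_sub, sx_sub] at gb
    rcases le_total 0 ux with h0 | h0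
    · have := H.bs.pos H.hL rx.d0 (by linarith) D Fl hB h0 rx.hi cap hs
      linarith
    · have := H.bs.neg H.hL rx.d0 (by linarith) (by linarith) D Fl hB rx.lo h0 cap hs
      linarith
  · rw [min_eq_right h]
    have gx := sx_le_mj (X := nx - k) (d := dx) (u := ux) (D := db) rb.d0 (by linarith)
      (rfl : db - ux = db - ux) rx.hi
    rw [sx_sub] at gx
    have gb : sx (nb - q) db ub ≤ sx (nb - q) db (db - w) :=
      sx_mono (by linarith) (by linarith) rb.lo rb.hi (by linarith) (by
        have h3 : (1 - db) * (db - w) ≤ (1 - db) * db :=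
          mul_le_mul_of_nonneg_left (by linarith) (by linarith)
        linarith [H.mb])
    have gb' := sx_le_mj (X := nb - q) (d := db) (u := db - w) (D := db) (s := w) rb.d0 w0
      (by ring) (by linarith)
    rw [sx_sub] at gb
    have hL := mul_nonneg H.hL hs
    have hv := vl_mono_l w0 Fl.A0 Fl.B0 Fl.lo (by linarith [Fl.hi] : A ≤ 1 + w - B)
    rcases le_total B w with hb | hb
    · have i := H.bu.h2 w B (db - ux) w0 w1 (by linarith) (by linarith [rx.lo]) hB Fl.B0 hb
      rw [vl_B hb (by linarith)] at hv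
      linarith
    · have i := H.bu.h1 w B (db - ux) w0 w1 (by linarith) (by linarith [rx.lo]) hB hb
      rw [vl_b (A := 1 + w - B) (by linarith) hb] at hv
      linarith

/-- the far cell belongs to `x` -/
theorem CM.fx (H : CM nb q nx k L db dx da W) (rb : Row db ub) (rx : Row dx ux)
    {f w d al be ua s t : ℝ} (F : FarC f w d al be ux ub ua dx db da s t)
    (own : w ≤ -ux + max (dx - d) 0) (w1 : w ≤ 13 / 20) (hs : 0 ≤ s) :
    Vm nb q nx k db dx ub ux + f ≤ W + L * s := by
  have hX := H.hX
  have hx := H.hx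
  have hq := H.hq
  have hk := H.hk
  obtain ⟨e, Fl, hown, cap⟩ := farC_facts F rx.d0 rb.hi w1 own
  rw [e]
  clear e F own
  generalize 1 - al = A at *
  generalize 1 - be = B at *
  have w0 := Fl.w0
  have dx1 := rx.d1
  have D : Dm w (dx - ux) := ⟨w0, w1, hown, by linarith [rx.lo]⟩
  unfold Vm
  rcases le_total ux ub with h | h
  · rw [min_eq_right h]
    have gx := sx_le_mj (X := nx - k) (d := dx) (u := ux) (D := dx) rx.d0 (by linarith)
      (rfl : dx - ux = dx - ux) rx.hi
    rw [sx_sub] at gx
    rcases le_total ub (13 / 20) with h1 | h1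
    · rw [min_eq_right h1]
      rcases le_total 0 ub with h0 | h0
      · have := H.xs0.pos H.hL rb.d0 D Fl h0 h1 h0 rb.hi cap hs
        rw [sx_sub] at this
        linarith
      · have := H.xs0.neg H.xn (by norm_num) H.hL (by linarith) rb.d0 D Fl rb.lo h0 cap hs
        rw [sx_sub] at this
        linarith
    · rw [min_eq_left h1]
      have := H.xs1.pos H.hL rb.d0 D Fl h1 rb.hi (by linarith) rb.hi cap hs
      linarith
  · rw [min_eq_left h, min_eq_right (by linarith : ub ≤ 13 / 20)]
    have gb := sx_le_mj (X := nb - q - k) (d := db) (u := ub) (D := dx) rx.d0 (by linarith)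
      (rfl : dx - ub = dx - ub) rb.hi
    rw [sx_sub, sx_sub] at gb
    have gx : sx nx dx ux ≤ sx nx dx (dx - w) :=
      sx_mono (by linarith) (by linarith) rx.lo rx.hi (by linarith) (by
        have h3 : (1 - dx) * (dx - w) ≤ (1 - dx) * dx :=
          mul_le_mul_of_nonneg_left (by linarith) (by linarith)
        linarith [H.mx])
    have gx' := sx_le_mj (X := nx) (d := dx) (u := dx - w) (D := dx) (s := w) rx.d0 w0
      (by ring) (by linarith)
    have hL := mul_nonneg H.hL hs
    have hv := vl_vm w0 w1 Fl.A0 Fl.B0 Fl.lo Fl.hi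
    have i := H.xu w (dx - ub) w0 w1 (by linarith) (by linarith [rb.lo])
    linarith

/-- two far cells; `a1`: `A ≤ M + d_G - 1`, `a2`: `A' ≤ M + d_F - 1` -/
theorem CM.two (H : CM nb q nx k L db dx da W) (rb : Row db ub) (rx : Row dx ux)
    {w v A B A' B' : ℝ} (F : Fl w A B) (G : Fl v A' B') (ow : w ≤ db - ub) (ov : v ≤ dx - ux)
    (hB : B ≤ 7 / 20 + da) (hda : 0 ≤ da)
    (hM : A + A' + B' ≤ max w v + v ∨ A' + A + B ≤ max w v + w) :
    Vm nb q nx k db dx ub ux + vl w A B + vl v A' B' ≤ W := by
  have hX := H.hX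
  have hx := H.hx
  have hq := H.hq
  have hk := H.hk
  have w0 := F.w0
  have w1 := F.w1
  have v0 := G.w0
  have v1 := G.w1
  have dx1 := rx.d1
  have db1 := rb.d1
  -- the volumes
  have key : (∃ a, 0 ≤ a ∧ a ≤ max w v ∧ vl w A B + vl v A' B' ≤ g0 (7 / 20 + da) w v a) ∨
      (∃ a, 0 ≤ a ∧ a ≤ max w v ∧ vl w A B + vl v A' B' ≤ g1 w v a) := by
    rcases hM with hM | hM
    · left
      have hA : A ≤ max w v := by linarith [G.lo]
      refine ⟨A, F.A0, hA, ?_⟩
      have h1 := vl_le w0 F.A0 F.B0 F.lo
      have h2 := vl_h v0 G.A0 G.B0 v1 G.lo G.hi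
      have h3 : w * A * B ≤ w * A * (7 / 20 + da) :=
        mul_le_mul_of_nonneg_left hB (mul_nonneg w0 F.A0)
      have h4 : 27 / 50 * v * (A' + B' - v) ≤ 27 / 50 * v * (max w v - A) :=
        mul_le_mul_of_nonneg_left (by linarith) (by linarith)
      unfold g0
      linarith
    · right
      have hA : A' ≤ max w v := by linarith [F.lo]
      refine ⟨A', G.A0, hA, ?_⟩
      have h1 := vl_h w0 F.A0 F.B0 w1 F.lo F.hi
      have h4 : 27 / 50 * w * (A + B - w) ≤ 27 / 50 * w * (max w v - A') :=
        mul_le_mul_of_nonneg_left (by linarith) (by linarith)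
      unfold g1
      split_ifs with h
      · rw [max_eq_right h] at hA
        have h3 := vl_mono_r v0 G.A0 G.B0 G.lo (by linarith [G.hi] : B' ≤ 1 + v - A')
        rw [vl_A hA (by linarith)] at h3
        linarith
      · have h3 := vl_wA v0 G.A0 G.B0 v1 G.lo G.hi
        linarith
  unfold Vm
  rcases le_total ub ux with h | h
  · rw [min_eq_left h, min_eq_right (by linarith : ub ≤ 13 / 20)]
    have gb := sx_le_mj (X := nb - q - k) (d := db) (u := ub) (D := db) rb.d0 (by linarith)
      (rfl : db - ub = db - ub) rb.hi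
    rw [sx_sub, sx_sub] at gb
    have gx : sx nx dx ux ≤ sx nx dx (dx - v) :=
      sx_mono (by linarith) (by linarith) rx.lo rx.hi (by linarith) (by
        have h3 : (1 - dx) * (dx - v) ≤ (1 - dx) * dx :=
          mul_le_mul_of_nonneg_left (by linarith) (by linarith)
        linarith [H.mx])
    have gx' := sx_le_mj (X := nx) (d := dx) (u := dx - v) (D := dx) (s := v) rx.d0 v0
      (by ring) (by linarith)
    rcases key with ⟨a, a0, a1, hv⟩ | ⟨a, a0, a1, hv⟩
    · have i := H.t00 w v (db - ub) a w0 v0 ow (by linarith [rb.lo]) a0 w1 v1 a1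
      simp only at i
      linarith
    · have i := H.t01 w v (db - ub) a w0 v0 ow (by linarith [rb.lo]) a0 w1 v1 a1
      simp only at i
      linarith
  · rw [min_eq_right h, min_eq_right (by linarith : ub ≤ 13 / 20)]
    have gx := sx_le_mj (X := nx - k) (d := dx) (u := ux) (D := dx) rx.d0 (by linarith)
      (rfl : dx - ux = dx - ux) rx.hi
    rw [sx_sub] at gx
    have gb : sx (nb - q) db ub ≤ sx (nb - q) db (db - w) :=
      sx_mono (by linarith) (by linarith) rb.lo rb.hi (by linarith) (by
        have h3 : (1 - db) * (db - w) ≤ (1 - db) * db :=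
          mul_le_mul_of_nonneg_left (by linarith) (by linarith)
        linarith [H.mb])
    have gb' := sx_le_mj (X := nb - q) (d := db) (u := db - w) (D := db) (s := w) rb.d0 w0
      (by ring) (by linarith)
    rw [sx_sub] at gb
    rcases key with ⟨a, a0, a1, hv⟩ | ⟨a, a0, a1, hv⟩
    · have i := H.t10 v w (dx - ux) a v0 w0 ov (by linarith [rx.lo]) a0 v1 w1
        (by rw [max_comm]; exact a1)
      simp only at i
      linarith
    · have i := H.t11 v w (dx - ux) a v0 w0 ov (by linarith [rx.lo]) a0 v1 w1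
        (by rw [max_comm]; exact a1)
      simp only at i
      linarith

end

end Pool.Agent.Helper53.TT
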