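import Pool.Agent.Helper53.TT.DefsB
import Pool.Agent.Helper53.TT.ColM2

/-!
# The column `b` in real variables
-/

set_option autoImplicit false

namespace Pool.Agent.Helper53.TT

open Pool.Agent.Helper36.TS Pool.Agent.Helper83.TS Pool.Agent.Helper74.TS Pool.Agent.Helper78.TS

/-- one more far cell, of the class with the parameter `A` of `F`: `t` and the volume `g` -/
structure EX (w A B t g : ℝ) : Prop where
  t0 : 0 ≤ t
  t1 : t ≤ 13 / 20
  v : g ≤ vm t
  two : (A ≤ w ∧ g ≤ 27 / 50 * t * (w - A)) ∨ (A + B ≤ 2 * w ∧ g ≤ t * (2 * w - A - B))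

theorem FF.swap {w A B : ℝ} (F : FF w A B) : FF w B A :=
  ⟨F.w0, F.w1, F.B0, F.A0, by linarith [F.lo], by linarith [F.hi]⟩

/-- the slot of the row `a` -/
theorem ra_le {n z w u : ℝ} (hn : 0 ≤ n) (hz0 : 0 ≤ z) (hz : z ≤ 3 / 5) (hw : 13 / 20 ≤ w)
    (lo : -(1 - z) ≤ u) (h : u ≤ z - w) : sx n z u ≤ ra n z w := by
  have h1 : sx n z u ≤ sx n z (z - w) := sx_mono hn (by linarith) lo (by linarith) h (by
    have := mul_nonneg (by linarith : 0 ≤ 1 - z) (by linarith : 0 ≤ w - z)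
    linarith)
  rw [sx_of_nonpos (by linarith : z - w ≤ 0)] at h1
  unfold ra
  linarith

/-- the majorant of the slot of a class with a far cell -/
theorem own_mj {c d u t : ℝ} (r : Row d u) (m : d * (1 - d) ≤ c) (t0 : 0 ≤ t) (h : u ≤ d - t) :
    sx c d u ≤ mj c (1 - d) d t := by
  have hd := r.d0
  have hd1 := r.d1
  have hc : 0 ≤ c := le_trans (mul_nonneg hd (by linarith)) m
  have h1 : sx c d u ≤ sx c d (d - t) := sx_mono hc (by linarith) r.lo r.hi h (by
    have h3 : (1 - d) * (d - t) ≤ (1 - d) * d := mul_le_mul_of_nonneg_left (by linarith) (by linarith)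
    linarith)
  have h2 := sx_le_mj (X := c) (d := d) (u := d - t) (D := d) (s := t) hd t0 (by ring)
    (by linarith)
  linarith

theorem c_nonneg {c d u : ℝ} (r : Row d u) (m : d * (1 - d) ≤ c) : 0 ≤ c :=
  le_trans (mul_nonneg r.d0 (by linarith [r.d1])) m

/-- the slot of a class with the cap of kind A -/
theorem slotA {c d u A : ℝ} (r : Row d u) (hc : 0 ≤ c) (cap : u ≤ 1 - A + d) :
    (A ≤ 1 + d ∧ ∃ v, 0 ≤ v ∧ v ≤ 1 ∧ v ≤ 1 - A + d ∧ sx c d u ≤ st c d v) ∨
      (1 + d ≤ A ∧ sx c d u ≤ c * (1 - A + d)) := by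
  rcases le_total A (1 + d) with h | h
  · left
    exact ⟨h, max u 0, le_max_right _ _, max_le r.hi zero_le_one, max_le cap (by linarith),
      sx_le_st (row_en hc r)⟩
  · right
    have h1 := sx_le_lin (c := c) r.lo (by linarith : u ≤ 0)
    have h2 := mul_le_mul_of_nonneg_left cap hc
    exact ⟨h, by linarith⟩

/-- the slot of a class with the shift `la` -/
theorem slotB {c la d u A : ℝ} (r : Row d u) (hc : 0 ≤ c - la) (cap : 1 - A + d ≤ u) :
    ∃ v, 0 ≤ v ∧ v ≤ 1 ∧ 1 - A + d ≤ v ∧ sx (c - la) d u ≤ st c d v - la * v := by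
  refine ⟨max u 0, le_max_right _ _, max_le r.hi zero_le_one, cap.trans (le_max_left _ _), ?_⟩
  have h := sx_le_st (row_en hc r)
  unfold st at h ⊢
  linarith

/-! ### Set A -/

section

variable {c1 dc c2 dl n z W uc ul w A B t g p g' : ℝ}

theorem GA.cell (H : GA c1 dc c2 dl n z W) (m1 : dc * (1 - dc) ≤ c1) (m2 : dl * (1 - dl) ≤ c2)
    (rc : Row dc uc) (rl : Row dl ul)
    (F : FF w A B) (G : EX w A B t g) (own : t ≤ dc - uc)
    (hk : (uc ≤ 1 - A + dc ∧ ul ≤ 1 - B + dl) ∨ vl w A B ≤ 1 / 10) :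
    sx c1 dc uc + sx c2 dl ul + ra n z w + vl w A B + g ≤ W := by
  have t0 := G.t0
  have t1 := G.t1
  have h1 := own_mj rc m1 t0 (by linarith : uc ≤ dc - t)
  have hc2 := c_nonneg rl m2
  rcases hk with ⟨kc, kl⟩ | hf
  · rcases G.two with ⟨hA, hg⟩ | ⟨hAB, hg⟩
    · rcases slotA rl hc2 kl with ⟨hB, v, v0, v1, v2, hv⟩ | ⟨hB, hv⟩
      · have i := H.p0 w A B t v F t0 t1 hA v0 v1 v2
        linarith
      · have i := H.y0 w A B t F t0 t1 hA hB
        linarith
    · rcases slotA rl hc2 kl with ⟨hB, v, v0, v1, v2, hv⟩ | ⟨hB, hv⟩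
      · rcases le_total A (1 + t) with hA | hA
        · have i := H.p1 w A B t v F t0 t1 hAB hA v0 v1 v2
          linarith
        · have i := H.b1 w A B t v F t0 t1 hAB hA v0 v1 v2
          have h2 := own_mj rc m1 (by linarith : 0 ≤ A - 1) (by linarith : uc ≤ dc - (A - 1))
          linarith
      · have i := H.y1 w A B t F t0 t1 hAB hB
        linarith
  · have i := H.l w t (max ul 0) F.w0 F.w1 t0 t1 (le_max_right _ _) (max_le rl.hi zero_le_one)
    have h2 := sx_le_st (row_en hc2 rl)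
    have := G.v
    linarith

theorem SA.none (H : SA c1 dc c2 dl n z W) (rc : Row dc uc) (rl : Row dl ul)
    (F : FF w A B) (hk : (uc ≤ 1 - A + dc ∧ ul ≤ 1 - B + dl) ∨ vl w A B ≤ 1 / 10) :
    sx c1 dc uc + sx c2 dl ul + ra n z w + vl w A B ≤ W := by
  have hc1 := c_nonneg rc H.m1
  have hc2 := c_nonneg rl H.m2
  rcases hk with ⟨kc, kl⟩ | hf
  · rcases slotA rc hc1 kc with ⟨hA, u, u0, u1, u2, hu⟩ | ⟨hA, hu⟩
    · rcases slotA rl hc2 kl with ⟨hB, v, v0, v1, v2, hv⟩ | ⟨hB, hv⟩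
      · have i := H.p w A B u v F u0 u1 u2 v0 v1 v2
        linarith
      · have i := H.yl w A B u F hB u0 u1 u2
        linarith
    · rcases slotA rl hc2 kl with ⟨hB, v, v0, v1, v2, hv⟩ | ⟨hB, hv⟩
      · have i := H.yc w A B v F hA v0 v1 v2
        linarith
      · have h3 := F.hi
        have h4 := F.w1
        have h1 := rc.d0
        have h2 := rl.d0
        have i := H.p w A B 0 0 F le_rfl zero_le_one (by linarith) le_rfl zero_le_one (by linarith)
        rw [st_zero, st_zero] at i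
        have g1 := mul_nonneg hc1 (by linarith : 0 ≤ A - (1 + dc))
        have g2 := mul_nonneg hc2 (by linarith : 0 ≤ B - (1 + dl))
        linarith
  · have i := H.l0 w (max uc 0) (max ul 0) F.w0 F.w1 (le_max_right _ _)
      (max_le rc.hi zero_le_one) (le_max_right _ _) (max_le rl.hi zero_le_one)
    have h1 := sx_le_st (row_en hc1 rc)
    have h2 := sx_le_st (row_en hc2 rl)
    linarith

theorem SA.two (H : SA c1 dc c2 dl n z W) (rc : Row dc uc) (rl : Row dl ul)
    (F : FF w A B) (G : EX w A B t g) (own : t ≤ dc - uc) (G' : EX w B A p g')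
    (own' : p ≤ dl - ul) :
    sx c1 dc uc + sx c2 dl ul + ra n z w + vl w A B + g + g' ≤ W := by
  have t0 := G.t0
  have t1 := G.t1
  have p0 := G'.t0
  have p1 := G'.t1
  have h1 := own_mj rc H.m1 t0 (by linarith : uc ≤ dc - t)
  have h2 := own_mj rl H.m2 p0 (by linarith : ul ≤ dl - p)
  rcases G.two with ⟨hA, hg⟩ | ⟨hAB, hg⟩
  · rcases G'.two with ⟨hB, hg'⟩ | ⟨hAB', hg'⟩
    · have i := H.g00 w A B t p F t0 t1 p0 p1 hA hB
      linarith
    · have i := H.g01 w A B t p F t0 t1 p0 p1 hA (by linarith)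
      have e : p * (2 * w - B - A) = p * (2 * w - A - B) := by ring
      linarith
  · rcases G'.two with ⟨hB, hg'⟩ | ⟨hAB', hg'⟩
    · have i := H.g10 w A B t p F t0 t1 p0 p1 hB hAB
      linarith
    · have i := H.g11 w A B t p F t0 t1 p0 p1 hAB
      have e : p * (2 * w - B - A) = p * (2 * w - A - B) := by ring
      linarith

end

/-! ### Set B -/

section

variable {c1 dc c2 dl la l2 n z W uc ul w A B t g p g' : ℝ}

theorem SB1.none (H : SB1 c1 dc c2 dl la n z W) (rc : Row dc uc) (rl : Row dl ul)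
    (F : FF w A B) (hf : 1 / 10 ≤ vl w A B) (kc : 1 - A + dc ≤ uc) (kl : ul ≤ 1 - B + dl) :
    sx (c1 - la) dc uc + sx c2 dl ul + ra n z w + vl w A B ≤ W - la * (1 + w - A - B) := by
  obtain ⟨u, u0, u1, u2, hu⟩ := slotB rc H.m1 kc
  have hc2 := c_nonneg rl H.m2
  have e : la * (1 + w - A - B - u) = la * (1 + w - A - B) - la * u := by ring
  rcases slotA rl hc2 kl with ⟨hB, v, v0, v1, v2, hv⟩ | ⟨hB, hv⟩
  · have i := H.p w A B u v F hf u0 u1 u2 v0 v1 v2
    linarith
  · have i := H.yl w A B u F hf u0 u1 u2 hB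
    linarith

/-- one more far cell, of the class `c` -/
theorem SB1.gC (H : SB1 c1 dc c2 dl la n z W) (rc : Row dc uc) (rl : Row dl ul)
    (F : FF w A B) (hw : w < 1) (hf : 1 / 10 ≤ vl w A B) (kc : 1 - A + dc ≤ uc)
    (kl : ul ≤ 1 - B + dl) (G : EX w A B t g) (own : t ≤ dc - uc) :
    sx (c1 - la) dc uc + sx c2 dl ul + ra n z w + vl w A B + g ≤ W - la * (1 + w - A - B) := by
  have t0 := G.t0
  have hc2 := c_nonneg rl H.m2
  have h1 := sx_le_mj (X := c1 - la) (d := dc) (u := uc) (D := dc) rc.d0 (by linarith)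
    (rfl : dc - uc = dc - uc) rc.hi
  have h2 := sx_le_st (row_en hc2 rl)
  have hi := F.hi
  have hd := rl.d0
  rcases G.two with ⟨hA, hg⟩ | ⟨hAB, hg⟩
  · linarith
  · have i := H.gc w A B (dc - uc) (max ul 0) F hf (by linarith) (by linarith [rc.lo])
      (by linarith) hAB (le_max_right _ _) (max_le rl.hi zero_le_one) (max_le kl (by linarith))
    have h3 : t * (2 * w - A - B) ≤ (dc - uc) * (2 * w - A - B) :=
      mul_le_mul_of_nonneg_right own (by linarith)
    linarith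

/-- one more far cell, of the class `l` -/
theorem SB1.gL (H : SB1 c1 dc c2 dl la n z W) (rc : Row dc uc) (rl : Row dl ul)
    (F : FF w A B) (hf : 1 / 10 ≤ vl w A B) (kc : 1 - A + dc ≤ uc)
    (G : EX w B A t g) (own : t ≤ dl - ul) :
    sx (c1 - la) dc uc + sx c2 dl ul + ra n z w + vl w A B + g ≤ W - la * (1 + w - A - B) := by
  obtain ⟨u, u0, u1, u2, hu⟩ := slotB rc H.m1 kc
  have e : la * (1 + w - A - B - u) = la * (1 + w - A - B) - la * u := by ring
  have h1 := own_mj rl H.m2 G.t0 (by linarith : ul ≤ dl - t)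
  rcases G.two with ⟨hB, hg⟩ | ⟨hAB, hg⟩
  · have i := H.gl0 w A B t u F hf G.t0 G.t1 hB u0 u1 u2
    linarith
  · have i := H.gl1 w A B t u F hf G.t0 G.t1 (by linarith) u0 u1 u2
    have e' : t * (2 * w - B - A) = t * (2 * w - A - B) := by ring
    linarith

/-- two more far cells -/
theorem SB1.gg (H : SB1 c1 dc c2 dl la n z W) (rc : Row dc uc) (rl : Row dl ul)
    (F : FF w A B) (hw : w < 1) (hf : 1 / 10 ≤ vl w A B) (kc : 1 - A + dc ≤ uc)
    (G : EX w A B t g) (own : t ≤ dc - uc) (G' : EX w B A p g') (own' : p ≤ dl - ul) :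
    sx (c1 - la) dc uc + sx c2 dl ul + ra n z w + vl w A B + g + g' ≤
      W - la * (1 + w - A - B) := by
  have t0 := G.t0
  have h1 := sx_le_mj (X := c1 - la) (d := dc) (u := uc) (D := dc) rc.d0 (by linarith)
    (rfl : dc - uc = dc - uc) rc.hi
  have h2 := own_mj rl H.m2 G'.t0 (by linarith : ul ≤ dl - p)
  rcases G.two with ⟨hA, hg⟩ | ⟨hAB, hg⟩
  · linarith
  · have h3 : t * (2 * w - A - B) ≤ (dc - uc) * (2 * w - A - B) :=
      mul_le_mul_of_nonneg_right own (by linarith)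
    rcases G'.two with ⟨hB, hg'⟩ | ⟨hAB', hg'⟩
    · have i := H.gg0 w A B (dc - uc) p F hf (by linarith) (by linarith [rc.lo])
        (by linarith) hAB G'.t0 G'.t1 hB
      linarith
    · have i := H.gg1 w A B (dc - uc) p F hf (by linarith) (by linarith [rc.lo])
        (by linarith) hAB G'.t0 G'.t1
      have e' : p * (2 * w - B - A) = p * (2 * w - A - B) := by ring
      linarith

theorem GB.cell (H : GB c1 dc c2 dl la l2 n z W) (rc : Row dc uc) (rl : Row dl ul)
    (m2 : 0 ≤ c2 - l2) (F : FF w A B) (hw : w < 1) (hf : 1 / 10 ≤ vl w A B)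
    (kc : 1 - A + dc ≤ uc) (kl : 1 - B + dl ≤ ul) (G : EX w A B t g) (own : t ≤ dc - uc) :
    sx (c1 - la) dc uc + sx (c2 - l2) dl ul + ra n z w + vl w A B + g ≤
      W - la * (1 + w - A - B) - l2 * (1 + w - A - B) := by
  have t0 := G.t0
  have h1 := sx_le_mj (X := c1 - la) (d := dc) (u := uc) (D := dc) rc.d0 (by linarith)
    (rfl : dc - uc = dc - uc) rc.hi
  obtain ⟨v, v0, v1, v2, hv⟩ := slotB rl m2 kl
  have e : l2 * (1 + w - A - B - v) = l2 * (1 + w - A - B) - l2 * v := by ring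
  rcases G.two with ⟨hA, hg⟩ | ⟨hAB, hg⟩
  · linarith
  · have i := H w A B (dc - uc) v F hf (by linarith) (by linarith [rc.lo])
      (by linarith) hAB v0 v1 v2
    have h3 : t * (2 * w - A - B) ≤ (dc - uc) * (2 * w - A - B) :=
      mul_le_mul_of_nonneg_right own (by linarith)
    linarith

theorem SB2.none (H : SB2 c1 dc c2 dl la l2 n z W) (rc : Row dc uc) (rl : Row dl ul)
    (F : FF w A B) (hf : 1 / 10 ≤ vl w A B) (kc : 1 - A + dc ≤ uc) (kl : 1 - B + dl ≤ ul) :
    sx (c1 - la) dc uc + sx (c2 - l2) dl ul + ra n z w + vl w A B ≤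
      W - la * (1 + w - A - B) - l2 * (1 + w - A - B) := by
  obtain ⟨u, u0, u1, u2, hu⟩ := slotB rc H.m1 kc
  obtain ⟨v, v0, v1, v2, hv⟩ := slotB rl H.m2 kl
  have e : la * (1 + w - A - B - u) = la * (1 + w - A - B) - la * u := by ring
  have e' : l2 * (1 + w - A - B - v) = l2 * (1 + w - A - B) - l2 * v := by ring
  have i := H.p w A B u v F hf u0 u1 u2 v0 v1 v2
  linarith

end

end Pool.Agent.Helper53.TT
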