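import Pool.Agent.Helper53.TT.Defs
import Pool.Agent.Helper78.TS.Asm

/-!
# The column `m` with two rows, in real variables
-/

set_option autoImplicit false

namespace Pool.Agent.Helper53.TT

open Pool.Agent.Helper36.TS Pool.Agent.Helper83.TS Pool.Agent.Helper74.TS Pool.Agent.Helper78.TS

/-! ### The volume -/

theorem vl_2 {w A B : ℝ} (hA : A ≤ w) (hB : w ≤ B) :
    vl w A B = w * A * B - w ^ 2 * A + w * A ^ 2 - A ^ 3 / 3 := by
  rw [vl, max_eq_left (by linarith : 0 ≤ w - A), max_eq_right (by linarith : w - B ≤ 0)]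
  ring

theorem vl_3 {w A B : ℝ} (hB : B ≤ w) (hA : w ≤ A) :
    vl w A B = w * A * B - w ^ 2 * B + w * B ^ 2 - B ^ 3 / 3 := by
  rw [vl, max_eq_left (by linarith : 0 ≤ w - B), max_eq_right (by linarith : w - A ≤ 0)]
  ring

theorem vl_4 {w A B : ℝ} (hA : A ≤ w) (hB : B ≤ w) :
    vl w A B = w * A * B - w ^ 3 / 3 + ((w - A) ^ 3 + (w - B) ^ 3) / 3 := by
  rw [vl, max_eq_left (by linarith : 0 ≤ w - B), max_eq_left (by linarith : 0 ≤ w - A)]

/-- `A + B = 1 + w`, `A ≤ w` -/
theorem vl_A {w A : ℝ} (hA : A ≤ w) (hA1 : A ≤ 1) : vl w A (1 + w - A) = w * A - A ^ 3 / 3 := by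
  rw [vl_2 hA (by linarith)]
  ring

/-- `A + B = 1 + w`, `B ≤ w` -/
theorem vl_B {w B : ℝ} (hB : B ≤ w) (hB1 : B ≤ 1) : vl w (1 + w - B) B = w * B - B ^ 3 / 3 := by
  rw [vl_comm, vl_A hB hB1]

theorem vl_wA {w A B : ℝ} (w0 : 0 ≤ w) (hA : 0 ≤ A) (hB : 0 ≤ B) (w1 : w ≤ 13 / 20)
    (h1 : w ≤ A + B) (h2 : A + B ≤ 1 + w) : vl w A B ≤ w * A := by
  rcases le_total A w with h | h
  · have h3 := vl_mono_r w0 hA hB h1 (by linarith : B ≤ 1 + w - A)
    rw [vl_A h (by linarith)] at h3
    have := pow_nonneg hA 3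
    linarith
  · have h3 := vl_le w0 hA hB h1
    have h4 : B ≤ 1 := by linarith
    have := mul_nonneg (mul_nonneg w0 hA) (sub_nonneg.2 h4)
    linarith

/-- the volume and the height of the cell -/
theorem vl_h {w A B : ℝ} (w0 : 0 ≤ w) (hA : 0 ≤ A) (hB : 0 ≤ B) (w1 : w ≤ 13 / 20)
    (h1 : w ≤ A + B) (h2 : A + B ≤ 1 + w) : vl w A B ≤ 27 / 50 * w * (A + B - w) := by
  have key : ∀ a b : ℝ, 0 ≤ a → a ≤ w → w ≤ b → a + b ≤ 1 + w →
      w * a * b - w ^ 2 * a + w * a ^ 2 - a ^ 3 / 3 ≤ 27 / 50 * w * (a + b - w) := by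
    intro a b a0 aw wb hab
    have e : w * a * b - w ^ 2 * a + w * a ^ 2 - a ^ 3 / 3 = w * a * (a + b - w) - a ^ 3 / 3 := by
      ring
    rw [e]
    have r0 : 0 ≤ a + b - w := by linarith
    have r1 : a + b - w ≤ 1 := by linarith
    rcases le_total a (27 / 50) with h | h
    · have := mul_nonneg (mul_nonneg w0 r0) (sub_nonneg.2 h)
      have := pow_nonneg a0 3
      nlinarith
    · have h3 : w * (a - 27 / 50) * (a + b - w) ≤ w * (a - 27 / 50) * 1 :=
        mul_le_mul_of_nonneg_left r1 (mul_nonneg w0 (by linarith))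
      have h4 : w * (a - 27 / 50) ≤ 13 / 20 * (a - 27 / 50) :=
        mul_le_mul_of_nonneg_right w1 (by linarith)
      have h5 : 13 / 20 * (a - 27 / 50) ≤ a ^ 3 / 3 := by
        nlinarith [mul_nonneg (sub_nonneg.2 h) (sub_nonneg.2 h), mul_nonneg a0 (sub_nonneg.2 h)]
      nlinarith
  rcases le_total w A with hA' | hA'
  · rcases le_total w B with hB' | hB'
    · rw [vl_b hA' hB']
      have h3 : A * B ≤ (A + B) ^ 2 / 4 := by nlinarith [sq_nonneg (A - B)]
      obtain ⟨S, hS⟩ : ∃ S, S = A + B := ⟨_, rfl⟩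
      rw [← hS] at h1 h2 h3 ⊢
      have h4 : S ^ 2 / 4 - w ^ 2 / 3 ≤ 27 / 50 * (S - w) := by
        have s2 : 2 * w ≤ S := by linarith
        nlinarith [mul_nonneg (sub_nonneg.2 s2) (sub_nonneg.2 h2), mul_nonneg w0 (sub_nonneg.2 w1),
          mul_nonneg w0 (sub_nonneg.2 s2), mul_nonneg w0 (sub_nonneg.2 h2),
          mul_nonneg (sub_nonneg.2 w1) (sub_nonneg.2 s2), mul_nonneg (sub_nonneg.2 w1) (sub_nonneg.2 h2)]
      have h5 := mul_le_mul_of_nonneg_left h3 w0
      have h6 := mul_le_mul_of_nonneg_left h4 w0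
      nlinarith
    · rw [vl_3 hB' hA']
      have := key B A hB hB' hA' (by linarith)
      linarith
  · rcases le_total w B with hB' | hB'
    · rw [vl_2 hA' hB']
      exact key A B hA hA' hB' h2
    · rw [vl_4 hA' hB']
      obtain ⟨p, hp⟩ : ∃ p, p = w - A := ⟨_, rfl⟩
      obtain ⟨q, hq⟩ : ∃ q, q = w - B := ⟨_, rfl⟩
      obtain ⟨r, hr⟩ : ∃ r, r = w - p - q := ⟨_, rfl⟩
      have p0 : 0 ≤ p := by linarith
      have q0 : 0 ≤ q := by linarith
      have r0 : 0 ≤ r := by linarith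
      have eA : A = w - p := by linarith
      have eB : B = w - q := by linarith
      have ew : w = p + q + r := by linarith
      have e1 : w * A * B - w ^ 3 / 3 + ((w - A) ^ 3 + (w - B) ^ 3) / 3
          = r * (w * r - r ^ 2 / 3 + p * q) := by
        rw [eA, eB, ew]
        ring
      have e2 : A + B - w = r := by linarith
      rw [e1, e2]
      have h3 : w * r - r ^ 2 / 3 + p * q ≤ 27 / 50 * w := by
        have h4 : p * q ≤ (p + q) ^ 2 / 4 := by nlinarith [sq_nonneg (p - q)]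
        have h5 : p + q = w - r := by linarith
        rw [h5] at h4
        have h6 : r ≤ w := by linarith
        nlinarith [mul_nonneg r0 (sub_nonneg.2 h6), mul_nonneg w0 (sub_nonneg.2 w1),
          mul_nonneg (sub_nonneg.2 h6) (sub_nonneg.2 h6)]
      have := mul_le_mul_of_nonneg_left h3 r0
      linarith

/-- the volume of a far cell -/
structure Fl (w A B : ℝ) : Prop where
  w0 : 0 ≤ w
  w1 : w ≤ 13 / 20
  A0 : 0 ≤ A
  B0 : 0 ≤ B
  lo : w ≤ A + B
  hi : A + B ≤ 1 + w

theorem sx_le_zero {c d u : ℝ} (hc : 0 ≤ c) (lo : -(1 - d) ≤ u) (h : u ≤ 0) : sx c d u ≤ 0 := by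
  have h1 := sx_le_lin (c := c) lo h
  have h2 := mul_nonneg hc (neg_nonneg.2 h)
  linarith

/-! ### The lowest class is `x`, with the far cell -/

section

variable {X dx c d e lo hi L W w s A B u : ℝ}

theorem XS.kA (H : XS X dx c d e lo hi L W) (D : Dm w s) (F : Fl w A B) (hlo : lo ≤ u)
    (hhi : u ≤ hi) (pu : u ≤ 1 - A + d) : mj X (1 - dx) dx s + st c d u + e + vl w A B ≤ W := by
  obtain ⟨w0, w1, ws, s1⟩ := D
  have hv := vl_mono_r w0 F.A0 F.B0 F.lo (by linarith [F.hi] : B ≤ 1 + w - A)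
  rcases le_total A w with h | h
  · have i := H.a2 w A s u w0 w1 ws s1 hlo hhi pu F.A0 h
    rw [vl_A h (by linarith)] at hv
    linarith
  · rcases le_total A 1 with h' | h'
    · have i := H.a1 w A s u w0 w1 ws s1 hlo hhi pu h h'
      rw [vl_b (B := 1 + w - A) h (by linarith)] at hv
      linarith
    · have hA1 : A ≤ 1 + w := by linarith [F.hi, F.B0]
      have i := H.a5 w A s u w0 w1 ws s1 hlo hhi pu h' hA1
      have e' := vl_B (w := w) (B := 1 + w - A) (by linarith) (by linarith)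
      rw [show 1 + w - (1 + w - A) = A by ring] at e'
      rw [e'] at hv
      linarith

theorem XS.kZ (H : XS X dx c d e lo hi L W) (hd : 0 ≤ d) (s0 : 0 ≤ s) (s1 : s ≤ 1) (hlo : lo ≤ u)
    (hhi : u ≤ hi) (hu : u ≤ 1) : mj X (1 - dx) dx s + st c d u + e ≤ W := by
  have i := H.a2 0 0 s u le_rfl (by norm_num) s0 s1 hlo hhi (by linarith) le_rfl le_rfl
  linarith

theorem XS.kB (H : XS X dx c d e lo hi L W) (hL : 0 ≤ L) (hd : 0 ≤ d) (D : Dm w s)
    (F : Fl w A B) (hlo : lo ≤ u) (hhi : u ≤ hi) (hu : u ≤ 1) (pu : 1 - A + d ≤ u) :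
    mj X (1 - dx) dx s + st c d u + e + vl w A B - L * (u + A + B - 1) ≤ W := by
  have w0 := D.w0
  have w1 := D.w1
  have r := H.b w s u w0 w1 D.ws D.s1 hlo hhi
  have hc := vl_vm (w := w) (A := 1 + w - B) (B := B) w0 w1 (by linarith [F.hi, F.A0]) F.B0
    (by linarith) (by linarith)
  have er : vl w (1 + w - B) B - L * ((u + B - 1) + (1 + w - B)) ≤
      W - (mj X (1 - dx) dx s + st c d u + e) := by
    have e' : L * ((u + B - 1) + (1 + w - B)) = L * (u + w) := by ring
    linarith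
  have fin : vl w A B - L * ((u + B - 1) + A) ≤ W - (mj X (1 - dx) dx s + st c d u + e) := by
    rcases le_total (w - B) (1 + d - u) with h | h
    · refine vl_conv' (t1 := 1 + d - u) (by linarith) (by linarith [F.hi] : A ≤ 1 + w - B) ?_ er
      have k := H.kA D (A := 1 + d - u) (B := B) ⟨w0, w1, by linarith, F.B0, by linarith,
        by linarith [F.hi]⟩ hlo hhi (by linarith)
      have := mul_nonneg hL (by linarith [F.B0] : 0 ≤ B + d)
      have e' : L * (u + B - 1 + (1 + d - u)) = L * (B + d) := by ring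
      linarith
    · refine vl_conv' (t1 := w - B) (by linarith [F.lo]) (by linarith [F.hi] : A ≤ 1 + w - B) ?_ er
      have k := H.kZ hd (s := s) (by linarith [D.ws]) D.s1 hlo hhi hu
      rw [vl_comm, vl_e F.B0 (by linarith)]
      have := mul_nonneg hL (by linarith [F.B0] : 0 ≤ u + w - 1)
      have e' : L * (u + B - 1 + (w - B)) = L * (u + w - 1) := by ring
      linarith
  have e' : L * ((u + B - 1) + A) = L * (u + A + B - 1) := by ring
  linarith

/-- nonnegative entry, both kinds -/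
theorem XS.pos (H : XS X dx c d e lo hi L W) (hL : 0 ≤ L) (hd : 0 ≤ d) (D : Dm w s)
    (F : Fl w A B) (hlo : lo ≤ u) (hhi : u ≤ hi) (hu0 : 0 ≤ u) (hu : u ≤ 1) {t : ℝ}
    (pu : u ≤ 1 - A + d ∨ u + A + B - 1 ≤ t) (ht : 0 ≤ t) :
    mj X (1 - dx) dx s + sx c d u + e + vl w A B ≤ W + L * t := by
  have Lt := mul_nonneg hL ht
  rw [sx_eq_st hu0 hu]
  rcases le_total u (1 - A + d) with h | h
  · have := H.kA D F hlo hhi h
    linarith
  · rcases pu with p | p
    · have := H.kA D F hlo hhi p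
      linarith
    · have := H.kB hL hd D F hlo hhi hu h
      have := mul_le_mul_of_nonneg_left p hL
      linarith

/-- kind A, negative entry -/
theorem XS.negA (H : XS X dx c d 0 0 hi L W) (N : XN X dx c d W) (hhi : 0 ≤ hi)
    (hd : 0 ≤ d) (hc : 0 ≤ c) (D : Dm w s) (F : Fl w A B) (ulo : -(1 - d) ≤ u) (hu : u ≤ 0)
    (pu : u ≤ 1 - A + d) : mj X (1 - dx) dx s + sx c d u + vl w A B ≤ W := by
  have w0 := D.w0
  have w1 := D.w1
  have A0 := F.A0
  have B0 := F.B0
  have h2 := F.hi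
  rcases le_total A (1 + d) with hA | hA
  · have g := sx_le_zero (c := c) hc ulo hu
    have := H.kA D F (u := 0) le_rfl hhi (by linarith)
    rw [st_zero] at this
    linarith
  · have g := sx_le_lin (c := c) ulo hu
    have h1 : c * u ≤ c * (1 - A + d) := mul_le_mul_of_nonneg_left pu hc
    have hv := vl_mono_r w0 A0 B0 F.lo (by linarith : B ≤ 1 + w - A)
    have i := N w (1 + w - A) s w0 w1 D.ws D.s1 (by linarith) (by linarith)
    have e' := vl_B (w := w) (B := 1 + w - A) (by linarith) (by linarith)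
    rw [show 1 + w - (1 + w - A) = A by ring] at e'
    rw [e'] at hv
    have e2 : c * (w - d - (1 + w - A)) = -(c * (1 - A + d)) := by ring
    rw [e2] at i
    linarith

theorem XS.neg (H : XS X dx c d 0 0 hi L W) (N : XN X dx c d W) (hhi : 0 ≤ hi) (hL : 0 ≤ L)
    (hc : 0 ≤ c) (hd : 0 ≤ d) (D : Dm w s) (F : Fl w A B) (ulo : -(1 - d) ≤ u) (hu : u ≤ 0)
    {t : ℝ} (pu : u ≤ 1 - A + d ∨ u + A + B - 1 ≤ t) (ht : 0 ≤ t) :
    mj X (1 - dx) dx s + sx c d u + vl w A B ≤ W + L * t := by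
  have Lt := mul_nonneg hL ht
  have w0 := D.w0
  have w1 := D.w1
  have A0 := F.A0
  have B0 := F.B0
  have h2 := F.hi
  rcases le_total u (1 - A + d) with h | h
  · have := H.negA N hhi hd hc D F ulo hu h
    linarith
  rcases pu with p | p
  · have := H.negA N hhi hd hc D F ulo hu p
    linarith
  have g := sx_le_lin (c := c) ulo hu
  have hA : 1 + d ≤ A := by linarith
  have L0 : 0 ≤ min L c := le_min hL hc
  have L1 : min L c * t ≤ L * t := mul_le_mul_of_nonneg_right (min_le_left _ _) ht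
  have L2 := mul_le_mul_of_nonneg_left p L0
  have L3 : (c - min L c) * u ≤ 0 :=
    mul_nonpos_of_nonneg_of_nonpos (sub_nonneg.2 (min_le_right _ _)) hu
  have key : mj X (1 - dx) dx s + vl w A B - min L c * (A + B - 1) ≤ W := by
    have e2 : vl w (1 + w - B) B - min L c * ((B - 1) + (1 + w - B)) ≤
        W - mj X (1 - dx) dx s := by
      have e' : min L c * ((B - 1) + (1 + w - B)) = min L c * w := by ring
      rw [e']
      rcases le_total L c with h' | h'
      · rw [min_eq_left h']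
        have i := H.b w s 0 w0 w1 D.ws D.s1 le_rfl hhi
        have hc' := vl_vm (w := w) (A := 1 + w - B) (B := B) w0 w1 (by linarith) B0
          (by linarith) (by linarith)
        rw [st_zero] at i
        linarith
      · rw [min_eq_right h']
        have i := N w B s w0 w1 D.ws D.s1 B0 (by linarith)
        rw [vl_B (by linarith) (by linarith)]
        have := mul_nonneg hc (by linarith : 0 ≤ d + B)
        linarith
    have e1 : vl w (1 + d) B - min L c * ((B - 1) + (1 + d)) ≤ W - mj X (1 - dx) dx s := by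
      have k := H.kA D (A := 1 + d) (B := B) (u := 0) ⟨w0, w1, by linarith, B0, by linarith,
        by linarith⟩ le_rfl hhi (by linarith)
      rw [st_zero] at k
      have := mul_nonneg L0 (by linarith : 0 ≤ B + d)
      have e' : min L c * ((B - 1) + (1 + d)) = min L c * (B + d) := by ring
      linarith
    have := vl_conv' (t1 := 1 + d) hA (by linarith : A ≤ 1 + w - B) e1 e2
    have e' : min L c * ((B - 1) + A) = min L c * (A + B - 1) := by ring
    linarith
  nlinarith

end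

/-! ### The lowest class is `b`, with the far cell -/

section

variable {X d c dx C L W w s A B u : ℝ}

theorem BS.kA (H : BS X d c dx C L W) (D : Dm w s) (F : Fl w A B) (hC : B ≤ C) (hu0 : 0 ≤ u)
    (hu1 : u ≤ 1) (pu : u ≤ 1 - A + dx) : mj X (1 - d) d s + st c dx u + vl w A B ≤ W := by
  obtain ⟨w0, w1, ws, s1⟩ := D
  rcases le_total A w with hA | hA
  · rcases le_total B w with hB | hB
    · have i := H.a4 w A B s u w0 w1 ws s1 hu0 hu1 pu hC F.A0 F.B0 hA hB F.lo
      rw [vl_4 hA hB]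
      linarith
    · have i := H.a2 w A B s u w0 w1 ws s1 hu0 hu1 pu F.hi hC F.A0 hA hB
      rw [vl_2 hA hB]
      linarith
  · rcases le_total B w with hB | hB
    · have i := H.a3 w A B s u w0 w1 ws s1 hu0 hu1 pu F.hi hC F.B0 hB hA
      rw [vl_3 hB hA]
      linarith
    · have i := H.a1 w A B s u w0 w1 ws s1 hu0 hu1 pu F.hi hC hA hB
      rw [vl_b hA hB]
      linarith

theorem BS.kZ (H : BS X d c dx C L W) (hC0 : 0 ≤ C) (hdx : 0 ≤ dx) (s0 : 0 ≤ s) (s1 : s ≤ 1)
    (hu0 : 0 ≤ u) (hu1 : u ≤ 1) : mj X (1 - d) d s + st c dx u ≤ W := by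
  have i := H.a1 0 0 0 s u le_rfl (by norm_num) s0 s1 hu0 hu1 (by linarith) (by norm_num) hC0
    le_rfl le_rfl
  linarith

/-- the right end -/
theorem BS.kE (H : BS X d c dx C L W) (D : Dm w s) (hC : B ≤ C) (hC1 : C ≤ 1) (B0 : 0 ≤ B)
    (hu0 : 0 ≤ u) (hu1 : u ≤ 1) :
    mj X (1 - d) d s + st c dx u - L * (u + w) + vl w (1 + w - B) B ≤ W := by
  obtain ⟨w0, w1, ws, s1⟩ := D
  rcases le_total B w with hB | hB
  · have i := H.b2 w B s u w0 w1 ws s1 hu0 hu1 hC B0 hB
    rw [vl_B hB (by linarith)]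
    linarith
  · have i := H.b1 w B s u w0 w1 ws s1 hu0 hu1 hC hB
    rw [vl_b (by linarith : w ≤ 1 + w - B) hB]
    linarith

theorem BS.kB (H : BS X d c dx C L W) (hL : 0 ≤ L) (hdx : 0 ≤ dx) (hC1 : C ≤ 1) (D : Dm w s)
    (F : Fl w A B) (hC : B ≤ C) (hu0 : 0 ≤ u) (hu : u ≤ 1) (pu : 1 - A + dx ≤ u) :
    mj X (1 - d) d s + st c dx u + vl w A B - L * (u + A + B - 1) ≤ W := by
  have w0 := D.w0
  have w1 := D.w1
  have B0 := F.B0
  have r := H.kE D hC hC1 B0 hu0 hu
  have er : vl w (1 + w - B) B - L * ((u + B - 1) + (1 + w - B)) ≤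
      W - (mj X (1 - d) d s + st c dx u) := by
    have e' : L * ((u + B - 1) + (1 + w - B)) = L * (u + w) := by ring
    linarith
  have fin : vl w A B - L * ((u + B - 1) + A) ≤ W - (mj X (1 - d) d s + st c dx u) := by
    rcases le_total (w - B) (1 + dx - u) with h | h
    · refine vl_conv' (t1 := 1 + dx - u) (by linarith) (by linarith [F.hi] : A ≤ 1 + w - B) ?_ er
      have k := H.kA D (A := 1 + dx - u) (B := B) ⟨w0, w1, by linarith, B0, by linarith,
        by linarith [F.hi]⟩ hC hu0 hu (by linarith)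
      have := mul_nonneg hL (by linarith : 0 ≤ B + dx)
      have e' : L * (u + B - 1 + (1 + dx - u)) = L * (B + dx) := by ring
      linarith
    · refine vl_conv' (t1 := w - B) (by linarith [F.lo]) (by linarith [F.hi] : A ≤ 1 + w - B) ?_ er
      have k := H.kZ (by linarith) hdx (s := s) (by linarith [D.ws]) D.s1 hu0 hu
      rw [vl_comm, vl_e B0 (by linarith)]
      have := mul_nonneg hL (by linarith : 0 ≤ u + w - 1)
      have e' : L * (u + B - 1 + (w - B)) = L * (u + w - 1) := by ring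
      linarith
  have e' : L * ((u + B - 1) + A) = L * (u + A + B - 1) := by ring
  linarith

theorem BS.pos (H : BS X d c dx C L W) (hL : 0 ≤ L) (hdx : 0 ≤ dx) (hC1 : C ≤ 1) (D : Dm w s)
    (F : Fl w A B) (hC : B ≤ C) (hu0 : 0 ≤ u) (hu : u ≤ 1) {t : ℝ}
    (pu : u ≤ 1 - A + dx ∨ u + A + B - 1 ≤ t) (ht : 0 ≤ t) :
    mj X (1 - d) d s + sx c dx u + vl w A B ≤ W + L * t := by
  have Lt := mul_nonneg hL ht
  rw [sx_eq_st hu0 hu]
  rcases le_total u (1 - A + dx) with h | h
  · have := H.kA D F hC hu0 hu h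
    linarith
  · rcases pu with p | p
    · have := H.kA D F hC hu0 hu p
      linarith
    · have := H.kB hL hdx hC1 D F hC hu0 hu h
      have := mul_le_mul_of_nonneg_left p hL
      linarith

/-- the left end -/
theorem BS.kL (H : BS X d c dx C L W) (D : Dm w s) (F : Fl w A B) (hC : B ≤ C)
    (hA : 1 + dx ≤ A) (hdx : 0 ≤ dx) : mj X (1 - d) d s + vl w (1 + dx) B ≤ W := by
  have k := H.kA D (A := 1 + dx) (B := B) (u := 0) ⟨D.w0, D.w1, by linarith, F.B0,
    by linarith [F.B0, D.w1], by linarith [F.hi]⟩ hC le_rfl zero_le_one (by linarith)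
  rw [st_zero] at k
  linarith

theorem BS.negA (H : BS X d c dx C L W) (hdx : 0 ≤ dx) (hc : 0 ≤ c)
    (D : Dm w s) (F : Fl w A B) (hC : B ≤ C) (ulo : -(1 - dx) ≤ u) (hu : u ≤ 0)
    (pu : u ≤ 1 - A + dx) : mj X (1 - d) d s + sx c dx u + vl w A B ≤ W := by
  have w0 := D.w0
  have w1 := D.w1
  have A0 := F.A0
  have B0 := F.B0
  have h2 := F.hi
  rcases le_total A (1 + dx) with hA | hA
  · have g := sx_le_zero (c := c) hc ulo hu
    have := H.kA D F hC (u := 0) le_rfl zero_le_one (by linarith)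
    rw [st_zero] at this
    linarith
  · have g := sx_le_lin (c := c) ulo hu
    have h1 : c * u ≤ c * (1 - A + dx) := mul_le_mul_of_nonneg_left pu hc
    have e1 : vl w (1 + dx) B - c * (-1 - dx + (1 + dx)) ≤ W - mj X (1 - d) d s := by
      have := H.kL D F hC hA hdx
      have e' : c * (-1 - dx + (1 + dx)) = 0 := by ring
      linarith
    have e2 : vl w (1 + w - B) B - c * (-1 - dx + (1 + w - B)) ≤ W - mj X (1 - d) d s := by
      have i := H.y w B s w0 w1 D.ws D.s1 B0 (by linarith) hC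
      rw [vl_B (by linarith) (by linarith)]
      have e' : c * (-1 - dx + (1 + w - B)) = c * (w - dx - B) := by ring
      linarith
    have := vl_conv' (t1 := 1 + dx) hA (by linarith : A ≤ 1 + w - B) e1 e2
    have e' : c * (-1 - dx + A) = -(c * (1 - A + dx)) := by ring
    linarith

theorem BS.neg (H : BS X d c dx C L W) (hL : 0 ≤ L) (hdx : 0 ≤ dx) (hC1 : C ≤ 1) (hc : 0 ≤ c)
    (D : Dm w s) (F : Fl w A B) (hC : B ≤ C) (ulo : -(1 - dx) ≤ u) (hu : u ≤ 0) {t : ℝ}
    (pu : u ≤ 1 - A + dx ∨ u + A + B - 1 ≤ t) (ht : 0 ≤ t) :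
    mj X (1 - d) d s + sx c dx u + vl w A B ≤ W + L * t := by
  have Lt := mul_nonneg hL ht
  have w0 := D.w0
  have w1 := D.w1
  have A0 := F.A0
  have B0 := F.B0
  have h2 := F.hi
  rcases le_total u (1 - A + dx) with h | h
  · have := H.negA hdx hc D F hC ulo hu h
    linarith
  rcases pu with p | p
  · have := H.negA hdx hc D F hC ulo hu p
    linarith
  have g := sx_le_lin (c := c) ulo hu
  have hA : 1 + dx ≤ A := by linarith
  have L0 : 0 ≤ min L c := le_min hL hc
  have L1 : min L c * t ≤ L * t := mul_le_mul_of_nonneg_right (min_le_left _ _) ht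
  have L2 := mul_le_mul_of_nonneg_left p L0
  have L3 : (c - min L c) * u ≤ 0 :=
    mul_nonpos_of_nonneg_of_nonpos (sub_nonneg.2 (min_le_right _ _)) hu
  have key : mj X (1 - d) d s + vl w A B - min L c * (A + B - 1) ≤ W := by
    have e2 : vl w (1 + w - B) B - min L c * ((B - 1) + (1 + w - B)) ≤
        W - mj X (1 - d) d s := by
      have e' : min L c * ((B - 1) + (1 + w - B)) = min L c * w := by ring
      rw [e']
      rcases le_total L c with h' | h'
      · rw [min_eq_left h']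
        have i := H.kE D hC hC1 B0 (u := 0) le_rfl zero_le_one
        rw [st_zero] at i
        linarith
      · rw [min_eq_right h']
        have i := H.y w B s w0 w1 D.ws D.s1 B0 (by linarith) hC
        rw [vl_B (by linarith) (by linarith)]
        have := mul_nonneg hc (by linarith : 0 ≤ dx + B)
        linarith
    have e1 : vl w (1 + dx) B - min L c * ((B - 1) + (1 + dx)) ≤ W - mj X (1 - d) d s := by
      have k := H.kL D F hC hA hdx
      have := mul_nonneg L0 (by linarith : 0 ≤ B + dx)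
      have e' : min L c * ((B - 1) + (1 + dx)) = min L c * (B + dx) := by ring
      linarith
    have := vl_conv' (t1 := 1 + dx) hA (by linarith : A ≤ 1 + w - B) e1 e2
    have e' : min L c * ((B - 1) + A) = min L c * (A + B - 1) := by ring
    linarith
  nlinarith

end

end Pool.Agent.Helper53.TT
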