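import Pool.Agent.Helper74.TS.Col0

/-!
# Case `CaseOneTall`: the polynomial inequalities of a column `m` with two rows

Column `m ≠ a, b` (`a` the tall class): rows `b` and `x`; the row `a` has an entry `≥ 13/20`, which
enters through the pair `{a, b}` with the multiplier `q` (kink at `13/20`) and through the cap
`B ≤ 7/20 + da` of a far cell of the class `b`. `k` is the multiplier of the pair `{b, x}`, `L` the
share of its slack.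
-/

set_option autoImplicit false

namespace Pool.Agent.Helper53.TT

open Pool.Agent.Helper83.TS Pool.Agent.Helper74.TS

/-- the lowest class is `x` (multiplier `X`), it has the far cell; the row `b` has the multiplier `c`,
the height `d`, an entry in `[lo, hi]` and the constant `e` -/
structure XS (X dx c d e lo hi L W : ℝ) : Prop where
  a1 : ∀ w A s u : ℝ, 0 ≤ w → w ≤ 13 / 20 → w ≤ s → s ≤ 1 → lo ≤ u → u ≤ hi → u ≤ 1 - A + d →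
    w ≤ A → A ≤ 1 →
    mj X (1 - dx) dx s + st c d u + e + w * A * (1 + w - A) - w ^ 3 / 3 ≤ W
  a2 : ∀ w A s u : ℝ, 0 ≤ w → w ≤ 13 / 20 → w ≤ s → s ≤ 1 → lo ≤ u → u ≤ hi → u ≤ 1 - A + d →
    0 ≤ A → A ≤ w →
    mj X (1 - dx) dx s + st c d u + e + w * A - A ^ 3 / 3 ≤ W
  a5 : ∀ w A s u : ℝ, 0 ≤ w → w ≤ 13 / 20 → w ≤ s → s ≤ 1 → lo ≤ u → u ≤ hi → u ≤ 1 - A + d →
    1 ≤ A → A ≤ 1 + w →
    mj X (1 - dx) dx s + st c d u + e + w * (1 + w - A) - (1 + w - A) ^ 3 / 3 ≤ W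
  b : ∀ w s u : ℝ, 0 ≤ w → w ≤ 13 / 20 → w ≤ s → s ≤ 1 → lo ≤ u → u ≤ hi →
    mj X (1 - dx) dx s + st c d u + e - L * (u + w) + vm w ≤ W

/-- the negative entries of the row `b` -/
def XN (X dx c d W : ℝ) : Prop :=
  ∀ w B s : ℝ, 0 ≤ w → w ≤ 13 / 20 → w ≤ s → s ≤ 1 → 0 ≤ B → B ≤ w - d →
    mj X (1 - dx) dx s - c * (w - d - B) + w * B - B ^ 3 / 3 ≤ W

/-- the lowest class is `b` (multiplier `X`, height `d`), it has the far cell, with `B ≤ C` for the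
class `a`; the row `x` has the multiplier `c` and the height `dx` -/
structure BS (X d c dx C L W : ℝ) : Prop where
  a1 : ∀ w A B s u : ℝ, 0 ≤ w → w ≤ 13 / 20 → w ≤ s → s ≤ 1 → 0 ≤ u → u ≤ 1 → u ≤ 1 - A + dx →
    A + B ≤ 1 + w → B ≤ C → w ≤ A → w ≤ B →
    mj X (1 - d) d s + st c dx u + w * A * B - w ^ 3 / 3 ≤ W
  a2 : ∀ w A B s u : ℝ, 0 ≤ w → w ≤ 13 / 20 → w ≤ s → s ≤ 1 → 0 ≤ u → u ≤ 1 → u ≤ 1 - A + dx →
    A + B ≤ 1 + w → B ≤ C → 0 ≤ A → A ≤ w → w ≤ B →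
    mj X (1 - d) d s + st c dx u + w * A * B - w ^ 2 * A + w * A ^ 2 - A ^ 3 / 3 ≤ W
  a3 : ∀ w A B s u : ℝ, 0 ≤ w → w ≤ 13 / 20 → w ≤ s → s ≤ 1 → 0 ≤ u → u ≤ 1 → u ≤ 1 - A + dx →
    A + B ≤ 1 + w → B ≤ C → 0 ≤ B → B ≤ w → w ≤ A →
    mj X (1 - d) d s + st c dx u + w * A * B - w ^ 2 * B + w * B ^ 2 - B ^ 3 / 3 ≤ W
  a4 : ∀ w A B s u : ℝ, 0 ≤ w → w ≤ 13 / 20 → w ≤ s → s ≤ 1 → 0 ≤ u → u ≤ 1 → u ≤ 1 - A + dx →
    B ≤ C → 0 ≤ A → 0 ≤ B → A ≤ w → B ≤ w → w ≤ A + B →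
    mj X (1 - d) d s + st c dx u + w * A * B - w ^ 3 / 3 + ((w - A) ^ 3 + (w - B) ^ 3) / 3 ≤ W
  y : ∀ w B s : ℝ, 0 ≤ w → w ≤ 13 / 20 → w ≤ s → s ≤ 1 → 0 ≤ B → B ≤ w - dx → B ≤ C →
    mj X (1 - d) d s - c * (w - dx - B) + w * B - B ^ 3 / 3 ≤ W
  b1 : ∀ w B s u : ℝ, 0 ≤ w → w ≤ 13 / 20 → w ≤ s → s ≤ 1 → 0 ≤ u → u ≤ 1 → B ≤ C → w ≤ B →
    mj X (1 - d) d s + st c dx u - L * (u + w) + w * B * (1 + w - B) - w ^ 3 / 3 ≤ W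
  b2 : ∀ w B s u : ℝ, 0 ≤ w → w ≤ 13 / 20 → w ≤ s → s ≤ 1 → 0 ≤ u → u ≤ 1 → B ≤ C → 0 ≤ B →
    B ≤ w → mj X (1 - d) d s + st c dx u - L * (u + w) + w * B - B ^ 3 / 3 ≤ W

/-- the far cell belongs to `b`, `ux ≤ ub`; `cb`, `cx` the multipliers of the slots -/
structure BU (cb d cx dx C W : ℝ) : Prop where
  h1 : ∀ w B s : ℝ, 0 ≤ w → w ≤ 13 / 20 → w ≤ s → s ≤ 1 + d - dx → B ≤ C → w ≤ B →
    mj cb (1 - d) d w + mj cx (1 - dx) d s + w * B * (1 + w - B) - w ^ 3 / 3 ≤ W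
  h2 : ∀ w B s : ℝ, 0 ≤ w → w ≤ 13 / 20 → w ≤ s → s ≤ 1 + d - dx → B ≤ C → 0 ≤ B → B ≤ w →
    mj cb (1 - d) d w + mj cx (1 - dx) d s + w * B - B ^ 3 / 3 ≤ W

/-- the far cell belongs to `x`, `ub ≤ ux` -/
def XU (cx dx cb d W : ℝ) : Prop :=
  ∀ w s : ℝ, 0 ≤ w → w ≤ 13 / 20 → w ≤ s → s ≤ 1 + dx - d →
    mj cx (1 - dx) dx w + mj cb (1 - d) dx s + vm w ≤ W

/-- two far cells; `lo` the lowest row (multiplier `X`, height `d`, own far cell `w`), `hi` the other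
row (multiplier `c`, height `d'`, own far cell `v`); `g w v A` bounds the volumes (`A ≤ max w v`) -/
def TW (X d c d' : ℝ) (g : ℝ → ℝ → ℝ → ℝ) (W : ℝ) : Prop :=
  ∀ w v s A : ℝ, 0 ≤ w → 0 ≤ v → w ≤ s → s ≤ 1 → 0 ≤ A → w ≤ 13 / 20 → v ≤ 13 / 20 →
    A ≤ max w v → mj X (1 - d) d s + mj c (1 - d') d' v + g w v A ≤ W

/-- the two bounds of the volumes: `w` belongs to `b`, `v` to `x` -/
noncomputable def g0 (C w v A : ℝ) : ℝ := w * A * C + 27 / 50 * v * (max w v - A)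

noncomputable def g1 (w v A : ℝ) : ℝ :=
  27 / 50 * w * (max w v - A) + (if w ≤ v then v * A - A ^ 3 / 3 else v * A)

/-- **the inequalities of a column `m`** -/
structure CM (nb q nx k L db dx da W : ℝ) : Prop where
  hq : 0 ≤ q
  hk : 0 ≤ k
  hL : 0 ≤ L
  hX : 0 ≤ nb - q - k
  hx : 0 ≤ nx - k
  mb : db * (1 - db) ≤ nb - q
  mx : dx * (1 - dx) ≤ nx
  n00 : ∀ s u : ℝ, 0 ≤ s → s ≤ 13 / 20 → 0 ≤ u → u ≤ 1 →
    st (nb - q - k) db s + st nx dx u ≤ W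
  n10 : ∀ s u : ℝ, 0 ≤ s → s ≤ 13 / 20 → 0 ≤ u → u ≤ 1 →
    st (nb - q) db s + st (nx - k) dx u ≤ W
  n01 : ∀ s u : ℝ, 13 / 20 ≤ s → s ≤ 1 → s ≤ u → u ≤ 1 →
    st (nb - k) db s - 13 / 20 * q + st nx dx u ≤ W
  n11 : ∀ s u : ℝ, 13 / 20 ≤ s → s ≤ 1 → 0 ≤ u → u ≤ 1 →
    st nb db s - 13 / 20 * q + st (nx - k) dx u ≤ W
  bs : BS (nb - q - k) db nx dx (7 / 20 + da) L W
  bu : BU (nb - q) db (nx - k) dx (7 / 20 + da) W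
  xs0 : XS (nx - k) dx (nb - q) db 0 0 (13 / 20) L W
  xs1 : XS (nx - k) dx nb db (-(13 / 20 * q)) (13 / 20) 1 L W
  xn : XN (nx - k) dx (nb - q) db W
  xu : XU nx dx (nb - q - k) db W
  t00 : TW (nb - q - k) db nx dx (fun w v A => g0 (7 / 20 + da) w v A) W
  t01 : TW (nb - q - k) db nx dx (fun w v A => g1 w v A) W
  t10 : TW (nx - k) dx (nb - q) db (fun v w A => g0 (7 / 20 + da) w v A) W
  t11 : TW (nx - k) dx (nb - q) db (fun v w A => g1 w v A) W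

end Pool.Agent.Helper53.TT
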