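import Pool.Agent.Helper53.TT.ColM2
import Pool.Agent.Helper78.TS.TallAsm

/-!
# The column `m ≠ a, b` of a family with a tall class `a`
-/

set_option autoImplicit false

namespace Pool.Agent.Helper53.TT

open Pool.Agent.Helper84.TS Pool.Agent.Helper36.TS Pool.Agent.Helper83.TS Pool.Agent.Helper74.TS
  Pool.Agent.Helper78.TS

section

variable {A : Fin 4 → Fin 4 → Option (Fin 4 → ℝ)} {P : Fin 4 → Fin 4 → ℝ} {a b m x : Fin 4}
  {F : Fin 4 → ℝ}

theorem tall_row (h : TallB A P a b F) {x m y z : Fin 4} (hn : [x, m, y, z].Nodup) :
    Row (P x x - 1) (-P x m) := by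
  obtain ⟨c1, c2, c3, c4, -⟩ := cell_lin (h.of.cell x x _ (h.hP x)) hn
  exact ⟨by linarith, h.hd x, by linarith, h.of.main x _ (h.hP x) m (nodup_ne hn).1⟩

/-- **Column `m`.** -/
theorem colI_m (h : TallB A P a b F) (hn : [a, b, m, x].Nodup) {nb q nx k L na t W : ℝ}
    (hC : CM nb q nx k L (P b b - 1) (P x x - 1) (P a a - 1) W)
    (hT : ∀ u, 0 ≤ u → u ≤ 1 → st na (P a a - 1) u ≤ t) :
    ColI A P m b x a nb nx na k q 0 L 0 0 (t + W) := by
  have n1 : [b, m, x, a].Nodup := by
    clear * - hn; revert hn; revert a b m x; decide
  have n2 : [x, m, b, a].Nodup := by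
    clear * - hn; revert hn; revert a b m x; decide
  have n3 : [a, m, b, x].Nodup := by
    clear * - hn; revert hn; revert a b m x; decide
  have n4 : [b, m, a, x].Nodup := by
    clear * - hn; revert hn; revert a b m x; decide
  have n5 : [b, x, m, a].Nodup := by
    clear * - hn; revert hn; revert a b m x; decide
  have hmb : m ≠ b := (nodup_ne n1).1
  have hmx : m ≠ x := (nodup_ne n2).1
  have hba : b ≠ a := (nodup_ne hn).1
  have hxa : x ≠ a := (nodup_ne hn).2.2
  have rb := tall_row h n1
  have rx := tall_row h n2
  have ra := tall_row h n3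
  have hi := (h.hi hn).1
  have hw := h.hw
  have ha : A a m = none := (h.one hn).1
  have hP' : ∀ i, A i (id i) = some (P i) := h.hP
  have ss := slk_nonneg h.of hP' n5
  have hq := mul_le_mul_of_nonneg_left
    (show min (13 / 20) (-P b m) ≤ min (-P b m) (-P a m) by
      rw [min_comm]; exact min_le_min_left _ (by linarith)) hC.hq
  have hta : sx na (P a a - 1) (-P a m) ≤ t := by
    rw [sx_eq_st (by linarith) ra.hi]
    exact hT _ (by linarith) ra.hi
  have cols : Vm nb q nx k (P b b - 1) (P x x - 1) (-P b m) (-P x m)
      + rst A id b m + rst A id x m ≤ W + L * slk P b x m a := by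
    have hL := mul_nonneg hC.hL ss
    have capB : ∀ G, A b m = some G → 1 - (G x + (G b - 1)) ≤ 7 / 20 + (P a a - 1) := by
      intro G hG
      rcases capAB (s := id) h.of hP' hG n4 rfl with e | ⟨-, e⟩
      · linarith
      · exfalso
        have h1 := h.lo hba
        have h2 := (farC_rst (s := id) h.of hP' hG n1).d1
        have h3 := h.hd a
        linarith
    rcases hb : A b m with _ | G
    · rcases hx : A x m with _ | G'
      · rw [rst_none id hb, rst_none id hx]
        have := hC.none rb rx
        linarith
      · rw [rst_none id hb, rst_some (s := id) hmx.symm hx]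
        have F' := farC_rst (s := id) h.of hP' hx n2
        rw [slk_comm P x b m a] at F'
        have := hC.fx rb rx F' (own_rst (s := id) h.of hP' hx hmx rfl)
          (h.small x m G' hxa hmx hx) ss
        linarith
    · rcases hx : A x m with _ | G'
      · rw [rst_none id hx, rst_some (s := id) hmb.symm hb]
        have F' := farC_rst (s := id) h.of hP' hb n1
        have := hC.fb rb rx F' (own_rst (s := id) h.of hP' hb hmb rfl)
          (h.small b m G hba hmb hb) ss (capB G hb) (by linarith [h.hd a])
        linarith
      · rw [rst_some (s := id) hmx.symm hx, rst_some (s := id) hmb.symm hb]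
        have F1 := farC_rst (s := id) h.of hP' hb n1
        have F2 := farC_rst (s := id) h.of hP' hx n2
        obtain ⟨e1, f1, o1, -⟩ := farC_facts F1 rb.d0 rx.hi (h.small b m G hba hmb hb)
          (own_rst (s := id) h.of hP' hb hmb rfl)
        obtain ⟨e2, f2, o2, -⟩ := farC_facts F2 rx.d0 rb.hi (h.small x m G' hxa hmx hx)
          (own_rst (s := id) h.of hP' hx hmx rfl)
        have g1 := (farC_vl F1).2.2.2.2.2
        have g2 := (farC_vl F2).2.2.2.2.2
        have ht := two_rst h.of hb hx n1
        have := hC.two rb rx f1 f2 o1 o2 (capB G hb) ra.d0 (by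
          have hmm : min (2 - (2 + G m)) (2 - (2 + G' m)) = 2 - max (2 + G m) (2 + G' m) := by
            rcases le_total (2 + G m) (2 + G' m) with h' | h'
            · rw [max_eq_right h', min_eq_right (by linarith)]
            · rw [max_eq_left h', min_eq_left (by linarith)]
          rw [hmm] at ht
          rcases le_total (G a) (G' a) with h' | h'
          · right
            rw [max_eq_right h'] at ht
            linarith
          · left
            rw [max_eq_left h'] at ht
            linarith)
        linarith
  unfold Vm at cols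
  unfold ColI
  rw [rst_none id ha]
  linarith

end

end Pool.Agent.Helper53.TT
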