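import Pool.Agent.Helper53.TT.ColB
import Pool.Agent.Helper53.TT.FamM

/-!
# The column `b` of a family with a tall class `a`
-/

set_option autoImplicit false

namespace Pool.Agent.Helper53.TT

open Pool.Agent.Helper84.TS Pool.Agent.Helper36.TS Pool.Agent.Helper83.TS Pool.Agent.Helper74.TS
  Pool.Agent.Helper78.TS

section

variable {A : Fin 4 → Fin 4 → Option (Fin 4 → ℝ)} {P : Fin 4 → Fin 4 → ℝ} {a b c l : Fin 4}
  {F : Fin 4 → ℝ}

/-- the parameter of `F = (a; b)` for the class `x`, `y` the fourth class -/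
def par (F : Fin 4 → ℝ) (a y : Fin 4) : ℝ := 1 - (F y + (F a - 1))

/-- the tall far cell -/
theorem tall_F (h : TallB A P a b F) (hn : [a, b, c, l].Nodup) :
    FF (2 + F b) (par F a l) (par F a c) ∧ fcl a F = vl (2 + F b) (par F a l) (par F a c) ∧
      2 + F b < 1 ∧ F a - 1 = 1 + (2 + F b) - par F a l - par F a c := by
  have F' := farC_rst (s := id) h.of h.hP h.hF hn
  obtain ⟨e, h1, h2, h3, h4, h5⟩ := farC_vl F'
  unfold par
  exact ⟨⟨h.hw.le, F'.w1.le, h1.le, h2.le, h3.le, h4⟩, e, F'.w1, h5⟩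

/-- one more far cell in the column `b` -/
theorem tall_ex (h : TallB A P a b F) (hn : [a, b, c, l].Nodup) {G : Fin 4 → ℝ}
    (hG : A c b = some G) :
    EX (2 + F b) (par F a l) (par F a c) (2 + G b) (fcl c G) ∧ 2 + G b ≤ (P c c - 1) - -P c b := by
  have n1 : [c, b, l, a].Nodup := by
    clear * - hn; revert hn; revert a b c l; decide
  have hbc : b ≠ c := (nodup_ne n1).1
  have hca : c ≠ a := (nodup_ne hn).2.1
  have hP' : ∀ i, A i (id i) = some (P i) := h.hP
  have rc := tall_row h n1
  have F1 := farC_rst (s := id) h.of hP' h.hF hn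
  have G1 := farC_rst (s := id) h.of hP' hG n1
  have hs := h.small c b G hca hbc hG
  obtain ⟨e, f1, o1, -⟩ := farC_facts G1 rc.d0
    (show -P l b ≤ 1 from (tall_row h (show [l, b, a, c].Nodup by
      clear * - hn; revert hn; revert a b c l; decide)).hi) hs
    (own_rst (s := id) h.of hP' hG hbc rfl)
  have g1 := (farC_vl F1).2.2.2.2.2
  have g2 := (farC_vl G1).2.2.2.2.2
  have hw := h.hw
  have ht := two_rst h.of h.hF hG hn
  have hmm : min (2 - (2 + F b)) (2 - (2 + G b)) = 2 - (2 + F b) := min_eq_left (by linarith)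
  rw [hmm] at ht
  refine ⟨⟨f1.w0, hs, ?_, ?_⟩, o1⟩
  · rw [e]
    exact vl_vm f1.w0 hs f1.A0 f1.B0 f1.lo f1.hi
  · rw [e]
    have hv := vl_h f1.w0 f1.A0 f1.B0 f1.w1 f1.lo f1.hi
    have hv' := vl_wA f1.w0 f1.B0 f1.A0 f1.w1 (by linarith [f1.lo]) (by linarith [f1.hi])
    rw [vl_comm] at hv'
    have f2 := f1.lo
    have f3 := f1.B0
    have f0 := f1.w0
    unfold par
    rcases le_total (F l) (G l) with h' | h'
    · right
      rw [max_eq_right h'] at ht
      refine ⟨by linarith, ?_⟩
      have h3 : (2 + G b) * (1 - (G l + (G c - 1))) ≤ (2 + G b) *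
          (2 * (2 + F b) - (1 - (F l + (F a - 1))) - (1 - (F c + (F a - 1)))) :=
        mul_le_mul_of_nonneg_left (by linarith) f0
      linarith
    · left
      rw [max_eq_left h'] at ht
      refine ⟨by linarith, ?_⟩
      have h3 : 27 / 50 * (2 + G b) *
          ((1 - (G a + (G c - 1))) + (1 - (G l + (G c - 1))) - (2 + G b)) ≤
          27 / 50 * (2 + G b) * (2 + F b - (1 - (F l + (F a - 1)))) :=
        mul_le_mul_of_nonneg_left (by linarith) (by linarith)
      linarith

/-- the column `b` from the value with the two orders -/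
theorem colI_b (h : TallB A P a b F) (hn : [a, b, c, l].Nodup) {nc nl n k W : ℝ} (hn0 : 0 ≤ n)
    (H : ∀ c1 c2 : ℝ, ((c1 = nc - k ∧ c2 = nl) ∨ (c1 = nc ∧ c2 = nl - k)) →
      sx c1 (P c c - 1) (-P c b) + sx c2 (P l l - 1) (-P l b)
        + ra n (P a a - 1) (2 + F b) + fcl a F + rst A id c b + rst A id l b ≤ W) :
    ColI A P b c l a nc nl n k 0 0 0 0 0 W := by
  have n3 : [a, b, c, l].Nodup := hn
  have hba : b ≠ a := (nodup_ne hn).1
  have ra' := tall_row h n3
  have hu := h.lo hba
  have hw := h.hw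
  have h1 := ra_le (n := n) (w := 2 + F b) hn0 ra'.d0 ra'.d1.le hw.le ra'.lo (by linarith)
  have hF : rst A id a b = fcl a F := rst_some (s := id) hba.symm h.hF
  unfold ColI
  rw [hF]
  rcases le_total (-P c b) (-P l b) with h2 | h2
  · have := H (nc - k) nl (Or.inl ⟨rfl, rfl⟩)
    rw [min_eq_left h2]
    rw [sx_sub] at this
    linarith
  · have := H nc (nl - k) (Or.inr ⟨rfl, rfl⟩)
    rw [min_eq_right h2]
    rw [sx_sub] at this
    linarith

end

/-! ### The three cases -/

/-- set A -/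
theorem colBA (H : ∀ x y z : ℝ, 0 ≤ x → x ≤ 3 / 5 → 0 ≤ y → y ≤ 3 / 5 → 0 ≤ z → z ≤ 3 / 5 →
    SA (TallA.n1 x - TallA.k12 x y) x (TallA.n1 y) y (TallA.n3 z) z (TallA.wb x y z)) :
    TallColBA := by
  intro A P a b c l F hn h hk
  have n0 : [a, b, l, c].Nodup := by
    clear * - hn; revert hn; revert a b c l; decide
  have n1 : [c, b, l, a].Nodup := by
    clear * - hn; revert hn; revert a b c l; decide
  have n2 : [l, b, c, a].Nodup := by
    clear * - hn; revert hn; revert a b c l; decide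
  have hbc : b ≠ c := (nodup_ne n1).1
  have hbl : b ≠ l := (nodup_ne n2).1
  have rc := tall_row h n1
  have rl := tall_row h n2
  have rA := tall_row h hn
  obtain ⟨F0, e, w1, hd⟩ := tall_F h hn
  have S1 := H _ _ _ rc.d0 rc.d1.le rl.d0 rl.d1.le rA.d0 rA.d1.le
  have S2 := H _ _ _ rl.d0 rl.d1.le rc.d0 rc.d1.le rA.d0 rA.d1.le
  have ek : TallA.k12 (P l l - 1) (P c c - 1) = TallA.k12 (P c c - 1) (P l l - 1) :=
    TallA.k12_comm _ _
  have ew : TallA.wb (P l l - 1) (P c c - 1) (P a a - 1) =
      TallA.wb (P c c - 1) (P l l - 1) (P a a - 1) := by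
    unfold TallA.wb
    ring
  rw [ek, ew] at S2
  refine colI_b h hn S1.n0 fun c1 c2 hc => ?_
  have hk1 : (-P c b ≤ 1 - par F a l + (P c c - 1) ∧ -P l b ≤ 1 - par F a c + (P l l - 1)) ∨
      vl (2 + F b) (par F a l) (par F a c) ≤ 1 / 10 := by
    rcases hk with ⟨k1, k2⟩ | hf
    · left
      unfold TKA at k1 k2
      unfold par
      exact ⟨by linarith, by linarith⟩
    · right
      rw [← e]
      exact hf
  have hk2 : (-P l b ≤ 1 - par F a c + (P l l - 1) ∧ -P c b ≤ 1 - par F a l + (P c c - 1)) ∨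
      vl (2 + F b) (par F a c) (par F a l) ≤ 1 / 10 := by
    rcases hk1 with ⟨k1, k2⟩ | hf
    · exact Or.inl ⟨k2, k1⟩
    · exact Or.inr (by rw [vl_comm]; exact hf)
  rw [e]
  have ev := vl_comm (2 + F b) (par F a c) (par F a l)
  rcases hc with ⟨rfl, rfl⟩ | ⟨rfl, rfl⟩
  · rcases hC : A c b with _ | G
    · rcases hL : A l b with _ | G'
      · rw [rst_none id hC, rst_none id hL]
        have := S1.none rc rl F0 hk1
        linarith
      · rw [rst_none id hC, rst_some (s := id) hbl.symm hL]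
        obtain ⟨E', o'⟩ := tall_ex h n0 hL
        have := S1.h2.cell S1.m2 S1.m1 rl rc F0.swap E' o' hk2
        linarith
    · obtain ⟨E, o⟩ := tall_ex h hn hC
      rcases hL : A l b with _ | G'
      · rw [rst_none id hL, rst_some (s := id) hbc.symm hC]
        have := S1.h1.cell S1.m1 S1.m2 rc rl F0 E o hk1
        linarith
      · rw [rst_some (s := id) hbl.symm hL, rst_some (s := id) hbc.symm hC]
        obtain ⟨E', o'⟩ := tall_ex h n0 hL
        have := S1.two rc rl F0 E o E' o'
        linarith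
  · rcases hC : A c b with _ | G
    · rcases hL : A l b with _ | G'
      · rw [rst_none id hC, rst_none id hL]
        have := S2.none rl rc F0.swap hk2
        linarith
      · rw [rst_none id hC, rst_some (s := id) hbl.symm hL]
        obtain ⟨E', o'⟩ := tall_ex h n0 hL
        have := S2.h1.cell S2.m1 S2.m2 rl rc F0.swap E' o' hk2
        linarith
    · obtain ⟨E, o⟩ := tall_ex h hn hC
      rcases hL : A l b with _ | G'
      · rw [rst_none id hL, rst_some (s := id) hbc.symm hC]
        have := S2.h2.cell S2.m2 S2.m1 rc rl F0 E o hk1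
        linarith
      · rw [rst_some (s := id) hbl.symm hL, rst_some (s := id) hbc.symm hC]
        obtain ⟨E', o'⟩ := tall_ex h n0 hL
        have := S2.two rl rc F0.swap E' o' E o
        linarith

/-- set B, kinds (B, A) -/
theorem colB1 (H0 : ∀ x y z : ℝ, 0 ≤ x → x ≤ 3 / 5 → 0 ≤ y → y ≤ 3 / 5 → 0 ≤ z → z ≤ 3 / 5 →
    SB1 (TallB.n1 x - TallB.k12 x y) x (TallB.n1 y) y (TallB.la x) (TallB.n3 z) z
      (TallB.wb1 x y z))
    (H1 : ∀ x y z : ℝ, 0 ≤ x → x ≤ 3 / 5 → 0 ≤ y → y ≤ 3 / 5 → 0 ≤ z → z ≤ 3 / 5 →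
    SB1 (TallB.n1 x) x (TallB.n1 y - TallB.k12 x y) y (TallB.la x) (TallB.n3 z) z
      (TallB.wb1 x y z)) : TallColB1 := by
  intro A P a b c l F hn h kc kl hf
  have n0 : [a, b, l, c].Nodup := by
    clear * - hn; revert hn; revert a b c l; decide
  have n1 : [c, b, l, a].Nodup := by
    clear * - hn; revert hn; revert a b c l; decide
  have n2 : [l, b, c, a].Nodup := by
    clear * - hn; revert hn; revert a b c l; decide
  have hbc : b ≠ c := (nodup_ne n1).1
  have hbl : b ≠ l := (nodup_ne n2).1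
  have rc := tall_row h n1
  have rl := tall_row h n2
  have rA := tall_row h hn
  obtain ⟨F0, e, w1, hd⟩ := tall_F h hn
  have S0 := H0 _ _ _ rc.d0 rc.d1.le rl.d0 rl.d1.le rA.d0 rA.d1.le
  have S1 := H1 _ _ _ rc.d0 rc.d1.le rl.d0 rl.d1.le rA.d0 rA.d1.le
  have kc' : 1 - par F a l + (P c c - 1) ≤ -P c b := by
    have := kc.cap
    unfold par
    linarith
  have kl' : -P l b ≤ 1 - par F a c + (P l l - 1) := by
    unfold TKA at kl
    unfold par
    linarith
  rw [hd]
  rw [e] at hf
  refine colI_b h hn S0.n0 fun c1 c2 hc => ?_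
  rw [e]
  have key : ∀ c1' c2' : ℝ, SB1 c1' (P c c - 1) c2' (P l l - 1) (TallB.la (P c c - 1))
      (TallB.n3 (P a a - 1)) (P a a - 1) (TallB.wb1 (P c c - 1) (P l l - 1) (P a a - 1)) →
      sx (c1' - TallB.la (P c c - 1)) (P c c - 1) (-P c b) + sx c2' (P l l - 1) (-P l b)
        + ra (TallB.n3 (P a a - 1)) (P a a - 1) (2 + F b)
        + vl (2 + F b) (par F a l) (par F a c) + rst A id c b + rst A id l b ≤
      TallB.wb1 (P c c - 1) (P l l - 1) (P a a - 1) - TallB.la (P c c - 1) *
        (1 + (2 + F b) - par F a l - par F a c) := by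
    intro c1' c2' S
    rcases hC : A c b with _ | G
    · rcases hL : A l b with _ | G'
      · rw [rst_none id hC, rst_none id hL]
        have := S.none rc rl F0 hf.le kc' kl'
        linarith
      · rw [rst_none id hC, rst_some (s := id) hbl.symm hL]
        obtain ⟨E', o'⟩ := tall_ex h n0 hL
        have := S.gL rc rl F0 hf.le kc' E' o'
        linarith
    · obtain ⟨E, o⟩ := tall_ex h hn hC
      rcases hL : A l b with _ | G'
      · rw [rst_none id hL, rst_some (s := id) hbc.symm hC]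
        have := S.gC rc rl F0 w1 hf.le kc' kl' E o
        linarith
      · rw [rst_some (s := id) hbl.symm hL, rst_some (s := id) hbc.symm hC]
        obtain ⟨E', o'⟩ := tall_ex h n0 hL
        have := S.gg rc rl F0 w1 hf.le kc' E o E' o'
        linarith
  rcases hc with ⟨rfl, rfl⟩ | ⟨rfl, rfl⟩
  · have := key _ _ S0
    rw [show TallB.n1 (P c c - 1) - TallB.la (P c c - 1) - TallB.k12 (P c c - 1) (P l l - 1)
      = TallB.n1 (P c c - 1) - TallB.k12 (P c c - 1) (P l l - 1) - TallB.la (P c c - 1) by ring]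
    exact this
  · exact key _ _ S1

/-- set B, kinds (B, B) -/
theorem colB2 (H : ∀ x y z : ℝ, 0 ≤ x → x ≤ 3 / 5 → 0 ≤ y → y ≤ 3 / 5 → 0 ≤ z → z ≤ 3 / 5 →
    SB2 (TallB.n1 x - TallB.k12 x y) x (TallB.n1 y) y (TallB.la x) (TallB.la y) (TallB.n3 z) z
      (TallB.wb2 x y z)) : TallColB2 := by
  intro A P a b c l F hn h kc kl hf
  have n0 : [a, b, l, c].Nodup := by
    clear * - hn; revert hn; revert a b c l; decide
  have n1 : [c, b, l, a].Nodup := by
    clear * - hn; revert hn; revert a b c l; decide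
  have n2 : [l, b, c, a].Nodup := by
    clear * - hn; revert hn; revert a b c l; decide
  have hbc : b ≠ c := (nodup_ne n1).1
  have hbl : b ≠ l := (nodup_ne n2).1
  have rc := tall_row h n1
  have rl := tall_row h n2
  have rA := tall_row h hn
  obtain ⟨F0, e, w1, hd⟩ := tall_F h hn
  have S1 := H _ _ _ rc.d0 rc.d1.le rl.d0 rl.d1.le rA.d0 rA.d1.le
  have S2 := H _ _ _ rl.d0 rl.d1.le rc.d0 rc.d1.le rA.d0 rA.d1.le
  have ek : TallB.k12 (P l l - 1) (P c c - 1) = TallB.k12 (P c c - 1) (P l l - 1) :=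
    TallB.k12_comm _ _
  have ew : TallB.wb2 (P l l - 1) (P c c - 1) (P a a - 1) =
      TallB.wb2 (P c c - 1) (P l l - 1) (P a a - 1) := by
    unfold TallB.wb2
    ring
  rw [ek, ew] at S2
  have kc' : 1 - par F a l + (P c c - 1) ≤ -P c b := by
    have := kc.cap
    unfold par
    linarith
  have kl' : 1 - par F a c + (P l l - 1) ≤ -P l b := by
    have := kl.cap
    unfold par
    linarith
  rw [hd]
  rw [e] at hf
  refine colI_b h hn S1.n0 fun c1 c2 hc => ?_
  rw [e]
  have hf' : 1 / 10 ≤ vl (2 + F b) (par F a c) (par F a l) := by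
    rw [vl_comm]
    exact hf.le
  have ev := vl_comm (2 + F b) (par F a c) (par F a l)
  have ed : ∀ t : ℝ, t * (1 + (2 + F b) - par F a c - par F a l) =
      t * (1 + (2 + F b) - par F a l - par F a c) := fun t => by ring
  rcases hc with ⟨rfl, rfl⟩ | ⟨rfl, rfl⟩
  · rw [show TallB.n1 (P c c - 1) - TallB.la (P c c - 1) - TallB.k12 (P c c - 1) (P l l - 1)
      = TallB.n1 (P c c - 1) - TallB.k12 (P c c - 1) (P l l - 1) - TallB.la (P c c - 1) by ring]
    rcases hC : A c b with _ | G
    · rcases hL : A l b with _ | G'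
      · rw [rst_none id hC, rst_none id hL]
        have := S1.none rc rl F0 hf.le kc' kl'
        linarith
      · rw [rst_none id hC, rst_some (s := id) hbl.symm hL]
        obtain ⟨E', o'⟩ := tall_ex h n0 hL
        have := S1.g2.cell rl rc S1.m1 F0.swap w1 hf' kl' kc' E' o'
        rw [ed, ed] at this
        linarith
    · obtain ⟨E, o⟩ := tall_ex h hn hC
      rcases hL : A l b with _ | G'
      · rw [rst_none id hL, rst_some (s := id) hbc.symm hC]
        have := S1.g1.cell rc rl S1.m2 F0 w1 hf.le kc' kl' E o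
        linarith
      · exfalso
        obtain ⟨E', o'⟩ := tall_ex h n0 hL
        have := F0.hi
        have := E.t0
        have := E'.t0
        linarith
  · rw [show TallB.n1 (P l l - 1) - TallB.la (P l l - 1) - TallB.k12 (P c c - 1) (P l l - 1)
      = TallB.n1 (P l l - 1) - TallB.k12 (P c c - 1) (P l l - 1) - TallB.la (P l l - 1) by ring]
    rcases hC : A c b with _ | G
    · rcases hL : A l b with _ | G'
      · rw [rst_none id hC, rst_none id hL]
        have := S2.none rl rc F0.swap hf' kl' kc'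
        rw [ed, ed] at this
        linarith
      · rw [rst_none id hC, rst_some (s := id) hbl.symm hL]
        obtain ⟨E', o'⟩ := tall_ex h n0 hL
        have := S2.g1.cell rl rc S2.m2 F0.swap w1 hf' kl' kc' E' o'
        rw [ed, ed] at this
        linarith
    · obtain ⟨E, o⟩ := tall_ex h hn hC
      rcases hL : A l b with _ | G'
      · rw [rst_none id hL, rst_some (s := id) hbc.symm hC]
        have := S2.g2.cell rc rl S2.m1 F0 w1 hf.le kc' kl' E o
        linarith
      · exfalso
        obtain ⟨E', o'⟩ := tall_ex h n0 hL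
        have := F0.hi
        have := E.t0
        have := E'.t0
        linarith

end Pool.Agent.Helper53.TT
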